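import Mathlib

/-! Sim-width. -/

set_option autoImplicit false

namespace Q109.Simw

open SimpleGraph

variable {W : Type}

/-- `G` has an induced matching with `k` edges `a i - b i`, each with one end in `A` and the other
end outside `A`.  (The listed edges are pairwise vertex-disjoint and no further edge of `G` joins
two of their ends; disjointness is automatic: `a i = a j` would give `G.Adj (a i) (b j)`.) -/
def CrossIM (G : SimpleGraph W) (A : Set W) (k : ℕ) : Prop :=
  ∃ a b : Fin k → W, (∀ i, a i ∈ A ∧ b i ∉ A ∧ G.Adj (a i) (b i)) ∧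
    ∀ i j, i ≠ j → ¬ G.Adj (a i) (a j) ∧ ¬ G.Adj (b i) (b j) ∧ ¬ G.Adj (a i) (b j)

/-- `simval G A`: the largest size of an induced matching of `G` all of whose edges cross the
bipartition `(A, Aᶜ)`. -/
noncomputable def simval (G : SimpleGraph W) (A : Set W) : ℕ :=
  sSup {k | CrossIM G A k}

/-- A branch decomposition of a graph with vertex set `W` (at least two vertices): a finite tree
all of whose vertices have degree `1` (leaves) or `3`, and a bijection from `W` to the leaves. -/
structure BranchDec (W : Type) where
  /-- the nodes of the tree -/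
  Node : Type
  finite : Finite Node
  /-- the tree -/
  T : SimpleGraph Node
  isTree : T.IsTree
  degree : ∀ t, (T.neighborSet t).ncard = 1 ∨ (T.neighborSet t).ncard = 3
  /-- the bijection between the vertices of the graph and the leaves -/
  leaf : W ≃ {t : Node // (T.neighborSet t).ncard = 1}

/-- the elements of `W` whose leaves lie on the side of `u` after deletion of the edge `uw` -/
def BranchDec.side (D : BranchDec W) (u w : D.Node) : Set W :=
  {x | (D.T.deleteEdges {s(u, w)}).Reachable u (D.leaf x).1}

/-- the sim-width of a branch decomposition: the maximum of `simval` over the edges of the tree -/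
noncomputable def BranchDec.width (D : BranchDec W) (G : SimpleGraph W) : ℕ :=
  sSup {k | ∃ u w, D.T.Adj u w ∧ simval G (D.side u w) = k}

/-- the sim-width of a graph: `0` if there is at most one vertex, otherwise the minimum of the
sim-widths of its branch decompositions -/
noncomputable def simw (G : SimpleGraph W) : ℕ :=
  if Nat.card W ≤ 1 then 0 else sInf {k | ∃ D : BranchDec W, D.width G = k}

section basic

variable [Finite W] {G : SimpleGraph W} {A : Set W}

lemma CrossIM.le_card {k : ℕ} (h : CrossIM G A k) : k ≤ Nat.card W := by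
  obtain ⟨a, b, h1, h2⟩ := h
  have hinj : Function.Injective a := by
    intro i j hij
    by_contra hne
    exact (h2 i j hne).2.2 (hij ▸ (h1 j).2.2)
  have := Nat.card_le_card_of_injective a hinj
  simpa using this

lemma CrossIM.mono {k l : ℕ} (h : CrossIM G A l) (hkl : k ≤ l) : CrossIM G A k := by
  obtain ⟨a, b, h1, h2⟩ := h
  refine ⟨fun i => a (Fin.castLE hkl i), fun i => b (Fin.castLE hkl i), fun i => h1 _, ?_⟩
  intro i j hij
  exact h2 _ _ fun h => hij (Fin.castLE_injective hkl h)

lemma bddAbove_cross : BddAbove {k | CrossIM G A k} :=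
  ⟨Nat.card W, fun _ hk => CrossIM.le_card hk⟩

lemma le_simval {k : ℕ} (h : CrossIM G A k) : k ≤ simval G A := le_csSup bddAbove_cross h

lemma cross_simval : CrossIM G A (simval G A) := by
  have hne : {k | CrossIM G A k}.Nonempty :=
    ⟨0, Fin.elim0, Fin.elim0, fun i => i.elim0, fun i => i.elim0⟩
  exact Nat.sSup_mem hne bddAbove_cross

lemma simval_le_of {k : ℕ} (h : ¬ CrossIM G A (k + 1)) : simval G A ≤ k := by
  by_contra hcon
  exact h (cross_simval.mono (by omega))

lemma simval_le_card : simval G A ≤ Nat.card W := cross_simval.le_card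

lemma bddAbove_width (D : BranchDec W) :
    BddAbove {k | ∃ u w, D.T.Adj u w ∧ simval G (D.side u w) = k} := by
  refine ⟨Nat.card W, ?_⟩
  rintro k ⟨u, w, _, rfl⟩
  exact simval_le_card

lemma simval_le_width (D : BranchDec W) {u w : D.Node} (h : D.T.Adj u w) :
    simval G (D.side u w) ≤ D.width G := le_csSup (bddAbove_width D) ⟨u, w, h, rfl⟩

lemma width_le (D : BranchDec W) {m : ℕ} (h : ∀ u w, D.T.Adj u w → simval G (D.side u w) ≤ m) :
    D.width G ≤ m := by
  rcases Set.eq_empty_or_nonempty {k | ∃ u w, D.T.Adj u w ∧ simval G (D.side u w) = k} with he | hne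
  · unfold BranchDec.width
    rw [he, csSup_empty]
    exact bot_le
  · refine csSup_le hne ?_
    rintro k ⟨u, w, huw, rfl⟩
    exact h u w huw

end basic

end Q109.Simw
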