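import Mathlib

/-! Adding a pendant vertex to a tree, and cubic trees whose edges respect a partition of the
leaves into three classes. -/

set_option autoImplicit false

namespace Q109.Simw

open SimpleGraph

lemma reach_induct {α : Type} {H : SimpleGraph α} {a : α} {P : α → Prop} (h0 : P a)
    (hs : ∀ y z, P y → H.Adj y z → P z) : ∀ y, H.Reachable a y → P y := by
  intro y hy
  rw [reachable_iff_reflTransGen] at hy
  induction hy with
  | refl => exact h0
  | tail _ hyz ih => exact hs _ _ ih hyz

section leaf

variable {U : Type}

/-- add a pendant vertex at `u` -/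
def addLeaf (T : SimpleGraph U) (u : U) : SimpleGraph (Option U) where
  Adj x y := (∃ a b, x = some a ∧ y = some b ∧ T.Adj a b) ∨ (x = some u ∧ y = none) ∨
    (x = none ∧ y = some u)
  symm := ⟨by
    rintro x y (⟨a, b, h1, h2, h3⟩ | ⟨h1, h2⟩ | ⟨h1, h2⟩)
    · exact Or.inl ⟨b, a, h2, h1, h3.symm⟩
    · exact Or.inr (Or.inr ⟨h2, h1⟩)
    · exact Or.inr (Or.inl ⟨h2, h1⟩)⟩
  loopless := ⟨by
    rintro x (⟨a, b, h1, h2, h3⟩ | ⟨h1, h2⟩ | ⟨h1, h2⟩)
    · rw [h1, Option.some_inj] at h2
      exact h3.ne h2
    · rw [h1] at h2; exact absurd h2 (by simp)
    · rw [h1] at h2; exact absurd h2 (by simp)⟩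

variable {T : SimpleGraph U} {u : U}

@[simp] lemma addLeaf_ss {a b : U} : (addLeaf T u).Adj (some a) (some b) ↔ T.Adj a b := by
  simp [addLeaf]

@[simp] lemma addLeaf_sn {a : U} : (addLeaf T u).Adj (some a) none ↔ a = u := by
  simp [addLeaf]

@[simp] lemma addLeaf_ns {a : U} : (addLeaf T u).Adj none (some a) ↔ a = u := by
  simp [addLeaf]

@[simp] lemma addLeaf_nn : ¬ (addLeaf T u).Adj none none := by
  simp [addLeaf]

lemma addLeaf_del {a b : U} : (addLeaf T u).deleteEdges {s(some a, some b)} =
    addLeaf (T.deleteEdges {s(a, b)}) u := by
  ext x y
  rcases x with _ | x <;> rcases y with _ | y <;> simp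

lemma reach_ss {a c : U} : (addLeaf T u).Reachable (some a) (some c) ↔ T.Reachable a c := by
  constructor
  · intro h
    have key : ∀ y, (addLeaf T u).Reachable (some a) y → T.Reachable a (y.getD u) := by
      refine reach_induct (Reachable.refl _) ?_
      intro y z ih hyz
      rcases y with _ | y <;> rcases z with _ | z
      · exact ih
      · rw [addLeaf_ns] at hyz; subst hyz; simpa using ih
      · rw [addLeaf_sn] at hyz; subst hyz; simpa using ih
      · rw [addLeaf_ss] at hyz
        exact ih.trans (by simpa using hyz.reachable)
    exact key _ h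
  · intro h
    exact reach_induct (P := fun c => (addLeaf T u).Reachable (some a) (some c))
      (Reachable.refl _) (fun y z ih hyz => ih.trans (Adj.reachable (addLeaf_ss.2 hyz))) c h

lemma reach_sn {a : U} : (addLeaf T u).Reachable (some a) none ↔ T.Reachable a u := by
  rw [← reach_ss (u := u)]
  have h : (addLeaf T u).Reachable none (some u) := Adj.reachable (addLeaf_ns.2 rfl)
  exact ⟨fun h' => h'.trans h, fun h' => h'.trans h.symm⟩

lemma pend_from_none {y : Option U}
    (h : ((addLeaf T u).deleteEdges {s(none, some u)}).Reachable none y) : y = none := by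
  refine reach_induct (P := fun y => y = none) rfl ?_ y h
  intro y z ih hyz
  subst ih
  rcases z with _ | z
  · rfl
  · simp only [deleteEdges_adj, addLeaf_ns, Set.mem_singleton_iff] at hyz
    exact absurd (by rw [hyz.1]) hyz.2

lemma pend_from_some (hT : T.Connected) {c : U} :
    ((addLeaf T u).deleteEdges {s(some u, none)}).Reachable (some u) (some c) := by
  refine reach_induct (H := T) (P := fun c =>
    ((addLeaf T u).deleteEdges {s(some u, none)}).Reachable (some u) (some c))
    (Reachable.refl _) ?_ c (hT.preconnected u c)
  intro y z ih hyz
  refine ih.trans (Adj.reachable ?_)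
  simp only [deleteEdges_adj, addLeaf_ss, Set.mem_singleton_iff]
  exact ⟨hyz, by simp⟩

lemma addLeaf_isTree (hT : T.IsTree) : (addLeaf T u).IsTree := by
  have hconn : (addLeaf T u).Connected := by
    have : Nonempty (Option U) := ⟨none⟩
    refine Connected.mk ?_
    have h0 : ∀ y, (addLeaf T u).Reachable (some u) y := by
      intro y
      rcases y with _ | y
      · exact reach_sn.2 (Reachable.refl _)
      · exact reach_ss.2 (hT.connected.preconnected u y)
    intro x y
    exact (h0 x).symm.trans (h0 y)
  refine ⟨hconn, ?_⟩
  rw [isAcyclic_iff_forall_adj_isBridge]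
  intro x y hxy
  rw [isBridge_iff]
  rcases x with _ | x <;> rcases y with _ | y
  · exact absurd hxy addLeaf_nn
  · rw [addLeaf_ns] at hxy
    subst hxy
    intro h
    exact absurd (pend_from_none h) (by simp)
  · rw [addLeaf_sn] at hxy
    subst hxy
    intro h
    rw [Sym2.eq_swap] at h
    exact absurd (pend_from_none h.symm) (by simp)
  · rw [addLeaf_ss] at hxy
    rw [addLeaf_del, reach_ss]
    exact isBridge_iff.1 (isAcyclic_iff_forall_adj_isBridge.1 hT.isAcyclic hxy)

lemma nbr_none : (addLeaf T u).neighborSet none = {some u} := by
  ext x
  rcases x with _ | x <;> simp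

lemma nbr_some (a : U) : (addLeaf T u).neighborSet (some a) =
    some '' T.neighborSet a ∪ {x | x = none ∧ a = u} := by
  ext x
  rcases x with _ | x <;> simp

lemma ncard_none : ((addLeaf T u).neighborSet none).ncard = 1 := by
  rw [nbr_none, Set.ncard_singleton]

open Classical in
lemma ncard_some [Finite U] (a : U) : ((addLeaf T u).neighborSet (some a)).ncard =
    (T.neighborSet a).ncard + if a = u then 1 else 0 := by
  rw [nbr_some]
  split_ifs with h
  · have : {x : Option U | x = none ∧ a = u} = {none} := by
      ext x; simp [h]
    rw [this, Set.ncard_union_eq _ (Set.toFinite _) (Set.toFinite _), Set.ncard_singleton,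
      Set.ncard_image_of_injective _ (Option.some_injective _)]
    rw [Set.disjoint_singleton_right]
    simp
  · have : {x : Option U | x = none ∧ a = u} = ∅ := by
      ext x; simp [h]
    rw [this, Set.union_empty, Set.ncard_image_of_injective _ (Option.some_injective _), add_zero]

end leaf

/-- `S` is the leaf set of a cubic tree each of whose edges cuts off a subset of a class -/
def HasDec {W : Type} (cl : W → Fin 3) (S : Finset W) : Prop :=
  ∃ (U : Type) (_ : Finite U) (T : SimpleGraph U) (L : W → U), T.IsTree ∧
    (∀ t, (T.neighborSet t).ncard = 1 ∨ (T.neighborSet t).ncard = 3) ∧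
    (∀ t, (T.neighborSet t).ncard = 1 ↔ ∃ x ∈ S, L x = t) ∧ Set.InjOn L S ∧
    ∀ a b, T.Adj a b → ∃ j,
      (∀ x ∈ S, (T.deleteEdges {s(a, b)}).Reachable a (L x) → cl x = j) ∨
      (∀ x ∈ S, ¬ (T.deleteEdges {s(a, b)}).Reachable a (L x) → cl x = j)

variable {W : Type} [DecidableEq W] {cl : W → Fin 3}

lemma unit_isTree : (⊥ : SimpleGraph Unit).IsTree := by
  refine ⟨?_, ?_⟩
  · refine Connected.mk ?_
    intro x y
    cases x; cases y
    exact Reachable.refl _
  · rw [isAcyclic_iff_forall_adj_isBridge]
    intro x y h
    exact absurd h (by simp)

open Classical in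
lemma hasDec_two (e g : W) (heg : e ≠ g) : HasDec cl ({e, g} : Finset W) := by
  refine ⟨Option Unit, inferInstance, addLeaf ⊥ (), fun x => if x = e then none else some (),
    addLeaf_isTree unit_isTree, ?_, ?_, ?_, ?_⟩
  · intro t
    rcases t with _ | t
    · exact Or.inl ncard_none
    · left
      rw [ncard_some]
      simp [SimpleGraph.neighborSet]
  · intro t
    rcases t with _ | t
    · refine ⟨fun _ => ⟨e, by simp, by simp⟩, fun _ => ncard_none⟩
    · refine ⟨fun _ => ⟨g, by simp, by simp [heg.symm]⟩, fun _ => ?_⟩
      rw [ncard_some]
      simp [SimpleGraph.neighborSet]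
  · intro x hx y hy hxy
    simp only [Finset.coe_insert, Finset.coe_singleton, Set.mem_insert_iff,
      Set.mem_singleton_iff] at hx hy
    rcases hx with rfl | rfl <;> rcases hy with rfl | rfl
    · rfl
    · simp [heg.symm] at hxy
    · simp [heg.symm] at hxy
    · rfl
  · intro a b hab
    rcases a with _ | a <;> rcases b with _ | b
    · exact absurd hab addLeaf_nn
    · refine ⟨cl e, Or.inl ?_⟩
      intro x hx h
      have h1 := pend_from_none h
      by_cases hxe : x = e
      · rw [hxe]
      · simp [hxe] at h1
    · refine ⟨cl g, Or.inl ?_⟩
      intro x hx h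
      simp only [Finset.mem_insert, Finset.mem_singleton] at hx
      rcases hx with rfl | rfl
      · exfalso
        simp only [if_true] at h
        rw [Sym2.eq_swap] at h
        exact absurd (pend_from_none h.symm) (by simp)
      · rfl
    · rw [addLeaf_ss] at hab
      exact absurd hab (by simp)

open Classical in
lemma hasDec_step {S : Finset W} {e f : W} (he : e ∈ S) (hf : f ∉ S)
    (hcl : cl e = cl f ∨ ∃ g, ∀ x ∈ S, x ≠ e → x = g) (h : HasDec cl S) :
    HasDec cl (insert f S) := by
  obtain ⟨U, hU, T, L, hT, hdeg, hleaf, hinj, hcut⟩ := h
  have hef : e ≠ f := fun h => hf (h ▸ he)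
  set u := L e with hu
  have hu1 : (T.neighborSet u).ncard = 1 := (hleaf u).2 ⟨e, he, rfl⟩
  -- the new leaf map
  let L' : W → Option (Option U) := fun x =>
    if x = f then none else if x = e then some none else some (some (L x))
  have hLf : L' f = none := by simp [L']
  have hLe : L' e = some none := by simp [L', hef]
  have hLx : ∀ x ∈ S, x ≠ e → L' x = some (some (L x)) := by
    intro x hx hxe
    have : x ≠ f := fun h => hf (h ▸ hx)
    simp [L', this, hxe]
  have hT1 : (addLeaf T u).IsTree := addLeaf_isTree hT
  have hd1 : ∀ a : U, ((addLeaf (addLeaf T u) (some u)).neighborSet (some (some a))).ncard =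
      (T.neighborSet a).ncard + if a = u then 2 else 0 := by
    intro a
    rw [ncard_some, ncard_some]
    by_cases h : a = u
    · simp [h]
    · simp [h]
  have hd2 : ((addLeaf (addLeaf T u) (some u)).neighborSet (some none)).ncard = 1 := by
    rw [ncard_some, ncard_none]
    simp
  have hd3 : ((addLeaf (addLeaf T u) (some u)).neighborSet none).ncard = 1 := ncard_none
  -- a leaf of the old tree is not `u` unless it carries `e`
  have hLu : ∀ x ∈ S, x ≠ e → L x ≠ u := fun x hx hxe h => hxe (hinj hx he h)
  refine ⟨Option (Option U), inferInstance, addLeaf (addLeaf T u) (some u), L',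
    addLeaf_isTree hT1, ?_, ?_, ?_, ?_⟩
  · intro t
    rcases t with _ | _ | a
    · exact Or.inl hd3
    · exact Or.inl hd2
    · rw [hd1]
      by_cases h : a = u
      · right; rw [if_pos h, h, hu1]
      · rw [if_neg h]
        simpa using hdeg a
  · intro t
    rcases t with _ | _ | a
    · exact ⟨fun _ => ⟨f, by simp, hLf⟩, fun _ => hd3⟩
    · exact ⟨fun _ => ⟨e, by simp [he], hLe⟩, fun _ => hd2⟩
    · rw [hd1]
      by_cases h : a = u
      · rw [if_pos h, h, hu1]
        refine ⟨fun h => by omega, ?_⟩
        rintro ⟨x, hx, hxL⟩
        rw [Finset.mem_insert] at hx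
        exfalso
        rcases hx with rfl | hx
        · rw [hLf] at hxL; simp at hxL
        · by_cases hxe : x = e
          · rw [hxe, hLe] at hxL; simp at hxL
          · rw [hLx x hx hxe] at hxL
            simp only [Option.some.injEq] at hxL
            exact hLu x hx hxe hxL
      · rw [if_neg h, add_zero, hleaf]
        constructor
        · rintro ⟨x, hx, rfl⟩
          have hxe : x ≠ e := fun h' => h (h' ▸ rfl)
          exact ⟨x, by simp [hx], hLx x hx hxe⟩
        · rintro ⟨x, hx, hxL⟩
          rw [Finset.mem_insert] at hx
          rcases hx with rfl | hx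
          · rw [hLf] at hxL; simp at hxL
          · by_cases hxe : x = e
            · rw [hxe, hLe] at hxL; simp at hxL
            · rw [hLx x hx hxe] at hxL
              simp only [Option.some.injEq] at hxL
              exact ⟨x, hx, hxL⟩
  · intro x hx y hy hxy
    simp only [Finset.coe_insert, Set.mem_insert_iff, Finset.mem_coe] at hx hy
    rcases hx with rfl | hx <;> rcases hy with rfl | hy
    · rfl
    · exfalso
      rw [hLf] at hxy
      by_cases hye : y = e
      · rw [hye, hLe] at hxy; simp at hxy
      · rw [hLx y hy hye] at hxy; simp at hxy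
    · exfalso
      rw [hLf] at hxy
      by_cases hxe : x = e
      · rw [hxe, hLe] at hxy; simp at hxy
      · rw [hLx x hx hxe] at hxy; simp at hxy
    · by_cases hxe : x = e <;> by_cases hye : y = e
      · rw [hxe, hye]
      · rw [hxe, hLe, hLx y hy hye] at hxy; simp at hxy
      · rw [hye, hLe, hLx x hx hxe] at hxy; simp at hxy
      · rw [hLx x hx hxe, hLx y hy hye] at hxy
        simp only [Option.some.injEq] at hxy
        exact hinj hx hy hxy
  · -- cuts
    intro a b hab
    rcases a with _ | a <;> rcases b with _ | b
    · exact absurd hab addLeaf_nn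
    · rw [addLeaf_ns] at hab
      subst hab
      refine ⟨cl f, Or.inl ?_⟩
      intro x hx h
      have h1 := pend_from_none h
      rw [Finset.mem_insert] at hx
      rcases hx with rfl | hx
      · rfl
      · exfalso
        by_cases hxe : x = e
        · rw [hxe, hLe] at h1; simp at h1
        · rw [hLx x hx hxe] at h1; simp at h1
    · rw [addLeaf_sn] at hab
      subst hab
      refine ⟨cl f, Or.inr ?_⟩
      intro x hx h
      rw [Finset.mem_insert] at hx
      rcases hx with rfl | hx
      · rfl
      · exfalso
        apply h
        by_cases hxe : x = e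
        · rw [hxe, hLe]; exact pend_from_some hT1.connected
        · rw [hLx x hx hxe]; exact pend_from_some hT1.connected
    · rw [addLeaf_ss] at hab
      rw [addLeaf_del]
      -- an edge of the once extended tree
      rcases a with _ | a <;> rcases b with _ | b
      · exact absurd hab addLeaf_nn
      · rw [addLeaf_ns] at hab
        subst hab
        refine ⟨cl e, Or.inl ?_⟩
        intro x hx h
        rw [Finset.mem_insert] at hx
        rcases hx with rfl | hx
        · exfalso
          rw [hLf, reach_sn] at h
          exact absurd (pend_from_none h) (by simp)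
        · by_cases hxe : x = e
          · rw [hxe]
          · exfalso
            rw [hLx x hx hxe, reach_ss] at h
            exact absurd (pend_from_none h) (by simp)
      · rw [addLeaf_sn] at hab
        subst hab
        refine ⟨cl e, Or.inr ?_⟩
        intro x hx h
        rw [Finset.mem_insert] at hx
        rcases hx with rfl | hx
        · exfalso
          apply h
          rw [hLf, reach_sn]
        · by_cases hxe : x = e
          · rw [hxe]
          · exfalso
            apply h
            rw [hLx x hx hxe, reach_ss]
            exact pend_from_some hT.connected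
      · rw [addLeaf_ss] at hab
        rw [addLeaf_del]
        -- an old edge
        have hrf : ∀ D : SimpleGraph U, (addLeaf (addLeaf D u) (some u)).Reachable
            (some (some a)) (L' f) ↔ D.Reachable a u := by
          intro D
          rw [hLf, reach_sn, reach_ss]
        have hre : ∀ D : SimpleGraph U, (addLeaf (addLeaf D u) (some u)).Reachable
            (some (some a)) (L' e) ↔ D.Reachable a u := by
          intro D
          rw [hLe, reach_ss, reach_sn]
        have hrx : ∀ D : SimpleGraph U, ∀ x ∈ S, (addLeaf (addLeaf D u) (some u)).Reachable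
            (some (some a)) (L' x) ↔ D.Reachable a (L x) := by
          intro D x hx
          by_cases hxe : x = e
          · rw [hxe, hre]
          · rw [hLx x hx hxe, reach_ss, reach_ss]
        rcases hcl with hcl | ⟨g, hg⟩
        · obtain ⟨j, hj⟩ := hcut a b hab
          refine ⟨j, ?_⟩
          rcases hj with hj | hj
          · left
            intro x hx h
            rw [Finset.mem_insert] at hx
            rcases hx with rfl | hx
            · rw [hrf] at h
              rw [← hcl]
              exact hj e he h
            · rw [hrx _ x hx] at h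
              exact hj x hx h
          · right
            intro x hx h
            rw [Finset.mem_insert] at hx
            rcases hx with rfl | hx
            · rw [hrf] at h
              rw [← hcl]
              exact hj e he h
            · rw [hrx _ x hx] at h
              exact hj x hx h
        · refine ⟨cl g, ?_⟩
          by_cases hau : (T.deleteEdges {s(a, b)}).Reachable a u
          · right
            intro x hx h
            rw [Finset.mem_insert] at hx
            rcases hx with rfl | hx
            · rw [hrf] at h; exact absurd hau h
            · by_cases hxe : x = e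
              · rw [hxe, hre] at h; exact absurd hau h
              · rw [hg x hx hxe]
          · left
            intro x hx h
            rw [Finset.mem_insert] at hx
            rcases hx with rfl | hx
            · rw [hrf] at h; exact absurd h hau
            · by_cases hxe : x = e
              · rw [hxe, hre] at h; exact absurd h hau
              · rw [hg x hx hxe]

/-- every finite set with at least two elements, coloured with three colours, is the leaf set of
such a tree -/
theorem hasDec_all : ∀ (n : ℕ) (S : Finset W), S.card = n + 2 → HasDec cl S := by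
  intro n
  induction n with
  | zero =>
    intro S hS
    obtain ⟨e, g, heg, rfl⟩ := Finset.card_eq_two.1 hS
    exact hasDec_two e g heg
  | succ n ih =>
    intro S hS
    rcases Nat.eq_zero_or_pos n with rfl | hn
    · -- three elements
      obtain ⟨f, e, g, hfe, hfg, heg, rfl⟩ := Finset.card_eq_three.1 hS
      apply hasDec_step (e := e) (S := {e, g}) (by simp) (by simp [hfe, hfg])
      · refine Or.inr ⟨g, ?_⟩
        intro x hx hxe
        simp only [Finset.mem_insert, Finset.mem_singleton] at hx
        exact hx.resolve_left hxe
      · exact hasDec_two e g heg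
    · -- at least four elements
      obtain ⟨e, he, f, hf, hef, hcl⟩ := Finset.exists_ne_map_eq_of_card_lt_of_maps_to
        (s := S) (t := (Finset.univ : Finset (Fin 3))) (f := cl) (by simp; omega) (by simp)
      have h1 := ih (S.erase f) (by rw [Finset.card_erase_of_mem hf]; omega)
      have h2 := hasDec_step (e := e) (f := f) (Finset.mem_erase.2 ⟨hef, he⟩)
        (Finset.notMem_erase f S) (Or.inl hcl) h1
      rwa [Finset.insert_erase hf] at h2

end Q109.Simw
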