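import Pool.Agent.Q109.Simw.Two

/-! Monochromatic matchings in two- and three-coloured complete graphs (Cockayne-Lorimer). -/

set_option autoImplicit false

namespace Q109.Simw

open Finset

variable {V : Type} [DecidableEq V] {c : V → V → Prop}

lemma hasM_of_all {R : V → V → Prop} : ∀ (k : ℕ) (s : Finset V),
    (∀ a ∈ s, ∀ b ∈ s, a ≠ b → R a b) → 2 * k ≤ s.card → HasM R s k := by
  intro k
  induction k with
  | zero => intro s _ _; exact hasM_zero s
  | succ k ih =>
    intro s h hc
    obtain ⟨a, ha, b, hb, hab⟩ := one_lt_card.1 (show 1 < s.card by omega)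
    refine HasM.add (s' := (s.erase a).erase b) ha hb hab (h a ha b hb hab) (ih _ ?_ ?_) ?_ ?_ ?_
    · intro x hx y hy hxy
      simp only [mem_erase] at hx hy
      exact h x hx.2.2 y hy.2.2 hxy
    · rw [card_erase_of_mem (mem_erase.2 ⟨hab.symm, hb⟩), card_erase_of_mem ha]
      omega
    · intro x hx
      simp only [mem_erase] at hx
      exact hx.2.2
    · simp
    · simp

lemma PM.congr {R R' : V → V → Prop} {t : Finset V} (h : PM R t)
    (hR : ∀ a ∈ t, ∀ b ∈ t, a ≠ b → R a b → R' a b) : PM R' t := by
  induction h with
  | nil => exact PM.nil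
  | cons t a b ht ha hb hab hRab ih =>
    refine PM.cons t a b (ih ?_) ha hb hab (hR a (by simp) b (by simp) hab hRab)
    intro x hx y hy hxy h
    exact hR x (by simp [hx]) y (by simp [hy]) hxy h

lemma HasM.congr {R R' : V → V → Prop} {s : Finset V} {k : ℕ} (h : HasM R s k)
    (hR : ∀ a ∈ s, ∀ b ∈ s, a ≠ b → R a b → R' a b) : HasM R' s k := by
  obtain ⟨t, h1, h2, h3⟩ := h
  exact ⟨t, h1, h2, h3.congr fun a ha b hb => hR a (h1 ha) b (h1 hb)⟩

/-- two colours -/
theorem two_mono (hs : ∀ a b, c a b → c b a) : ∀ (m : ℕ) (s : Finset V), 3 * m + 2 ≤ s.card →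
    HasM c s (m + 1) ∨ HasM (fun a b => ¬ c a b) s (m + 1) := by
  intro m
  induction m with
  | zero =>
    intro s hc
    obtain ⟨a, ha, b, hb, hab⟩ := one_lt_card.1 (show 1 < s.card by omega)
    by_cases h : c a b
    · exact Or.inl (HasM.add ha hb hab h (hasM_zero ∅) (empty_subset _) (by simp) (by simp))
    · exact Or.inr (HasM.add ha hb hab h (hasM_zero ∅) (empty_subset _) (by simp) (by simp))
  | succ m ih =>
    intro s hc
    by_cases h1 : ∃ a ∈ s, ∃ b ∈ s, a ≠ b ∧ c a b
    · by_cases h2 : ∃ a ∈ s, ∃ b ∈ s, a ≠ b ∧ ¬ c a b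
      · obtain ⟨a, ha, b, hb, hab, hcab⟩ := h1
        obtain ⟨x, hx, y, hy, hxy, hcxy⟩ := h2
        obtain ⟨p, q, r, hp, hq, hr', h1, h2, h3, h4, h5⟩ :=
          exists_cherry hs ha hb hx hy hab hxy hcab hcxy
        rcases ih (s \ {p, q, r}) (by
          rw [card_sdiff_of_subset (triple_subset hp hq hr'), card_triple h1 h2 h3]; omega) with
          h | h
        · exact Or.inl (HasM.add hp hq h1 h4 h sdiff_subset (by simp) (by simp))
        · exact Or.inr (HasM.add hp hr' h2 h5 h sdiff_subset (by simp) (by simp))
      · push Not at h2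
        exact Or.inl (hasM_of_all _ _ h2 (by omega))
    · push Not at h1
      exact Or.inr (hasM_of_all _ _ h1 (by omega))

lemma third (i j : Fin 3) (h : i ≠ j) : ∃ l, l ≠ i ∧ l ≠ j ∧ ∀ z : Fin 3, z = i ∨ z = j ∨ z = l := by
  revert i j
  decide

/-- **Three colours.** -/
theorem three_mono (col : V → V → Fin 3) (hs : ∀ a b, col a b = col b a) :
    ∀ (m : ℕ) (s : Finset V), 4 * m + 2 ≤ s.card →
      ∃ i, HasM (fun a b => col a b = i) s (m + 1) := by
  intro m
  induction m with
  | zero =>
    intro s hc
    obtain ⟨a, ha, b, hb, hab⟩ := one_lt_card.1 (show 1 < s.card by omega)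
    exact ⟨col a b, HasM.add ha hb hab rfl (hasM_zero ∅) (empty_subset _) (by simp) (by simp)⟩
  | succ m ih =>
    intro s hc
    by_cases hX : ∃ X : Finset V, X ⊆ s ∧ X.card ≤ 4 ∧ ∀ i, ∃ a ∈ X, ∃ b ∈ X, a ≠ b ∧ col a b = i
    · obtain ⟨X, hXs, hXc, hX⟩ := hX
      obtain ⟨i, hi⟩ := ih (s \ X) (by rw [card_sdiff_of_subset hXs]; omega)
      obtain ⟨a, ha, b, hb, hab, hcab⟩ := hX i
      exact ⟨i, HasM.add (hXs ha) (hXs hb) hab hcab hi sdiff_subset (by simp [ha]) (by simp [hb])⟩
    · push Not at hX
      obtain ⟨a, ha, b, hb, hab⟩ := one_lt_card.1 (show 1 < s.card by omega)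
      by_cases hmono : ∀ x ∈ s, ∀ y ∈ s, x ≠ y → col x y = col a b
      · exact ⟨col a b, hasM_of_all _ _ hmono (by omega)⟩
      · push Not at hmono
        obtain ⟨x, hx, y, hy, hxy, hcxy⟩ := hmono
        have hs1 : ∀ p q, (col p q = col a b) → (col q p = col a b) :=
          fun p q h => by rw [hs]; exact h
        obtain ⟨p, q, r, hp, hq, hr, h1, h2, h3, h4, h5⟩ :=
          exists_cherry (c := fun p q => col p q = col a b) hs1 ha hb hx hy hab hxy rfl hcxy
        set i := col a b with hi
        obtain ⟨l, hli, hlj, hall⟩ := third i (col p r) (fun h => h5 h.symm)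
        -- colour `l` does not occur
        have no : ∀ w ∈ s, ∀ w' ∈ s, w ≠ w' → col w w' ≠ l := by
          have base : ∀ w ∈ s, ∀ u, (u = p ∨ u = q ∨ u = r) → u ≠ w → col u w ≠ l := by
            intro w hw u hu huw hcol
            obtain ⟨i', hi'⟩ := hX {p, q, r, w} (by
              intro z hz
              simp only [mem_insert, mem_singleton] at hz
              rcases hz with rfl | rfl | rfl | rfl <;> assumption) (card_le_four)
            rcases hall i' with h | h | h
            · exact hi' p (by simp) q (by simp) h1 (h4.trans h.symm)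
            · exact hi' p (by simp) r (by simp) h2 h.symm
            · exact hi' u (by simp only [mem_insert, mem_singleton]; tauto) w (by simp) huw
                (hcol.trans h.symm)
          intro w hw w' hw' hww hcol
          have hpw : p ≠ w := by
            rintro rfl
            exact base w' hw' p (Or.inl rfl) hww hcol
          have hpw' : p ≠ w' := by
            rintro rfl
            exact base w hw p (Or.inl rfl) hww.symm (by rw [hs]; exact hcol)
          have hc1 := base w hw p (Or.inl rfl) hpw
          rcases hall (col p w) with h | h | h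
          · obtain ⟨i', hi'⟩ := hX {p, w, w', r} (by
              intro z hz
              simp only [mem_insert, mem_singleton] at hz
              rcases hz with rfl | rfl | rfl | rfl <;> assumption) (card_le_four)
            rcases hall i' with h' | h' | h'
            · exact hi' p (by simp) w (by simp) hpw (h.trans h'.symm)
            · exact hi' p (by simp) r (by simp) h2 h'.symm
            · exact hi' w (by simp) w' (by simp) hww (hcol.trans h'.symm)
          · obtain ⟨i', hi'⟩ := hX {p, w, w', q} (by
              intro z hz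
              simp only [mem_insert, mem_singleton] at hz
              rcases hz with rfl | rfl | rfl | rfl <;> assumption) (card_le_four)
            rcases hall i' with h' | h' | h'
            · exact hi' p (by simp) q (by simp) h1 (h4.trans h'.symm)
            · exact hi' p (by simp) w (by simp) hpw (h.trans h'.symm)
            · exact hi' w (by simp) w' (by simp) hww (hcol.trans h'.symm)
          · exact hc1 h
        rcases two_mono (c := fun a b => col a b = i) hs1 (m + 1) s (by omega) with h | h
        · exact ⟨i, h⟩
        · refine ⟨col p r, h.congr ?_⟩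
          intro w hw w' hw' hww hne
          rcases hall (col w w') with h' | h' | h'
          · exact absurd h' hne
          · exact h'
          · exact absurd h' (no w hw w' hw' hww)

end Q109.Simw
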