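import Pool.Agent.Q109.Simw.Defs
import Pool.Agent.Q109.Simw.Three
import Pool.Agent.Q109.Simw.Leaf
import Pool.Agent.Helper636.BwTree

/-! The sim-width of the line graph of a complete graph. -/

set_option autoImplicit false

namespace Q109.Simw

open SimpleGraph Finset Pool.Agent.Helper636.Bw

/-- the vertex set of the line graph of the complete graph -/
abbrev EK (n : ℕ) : Type := ↥((⊤ : SimpleGraph (Fin n)).edgeSet)

/-- the line graph of the complete graph -/
abbrev LK (n : ℕ) : SimpleGraph (EK n) := (⊤ : SimpleGraph (Fin n)).lineGraph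

variable {n : ℕ}

/-- the edge `ab` as a vertex of the line graph -/
def ed (a b : Fin n) (h : a ≠ b) : EK n := ⟨s(a, b), by simpa using h⟩

lemma ed_swap (a b : Fin n) (h : a ≠ b) : ed b a h.symm = ed a b h :=
  Subtype.ext Sym2.eq_swap

/-- the red colour class: edges in `A` -/
def red (A : Set (EK n)) (a b : Fin n) : Prop := ∃ h : a ≠ b, ed a b h ∈ A

lemma red_symm (A : Set (EK n)) : ∀ a b, red A a b → red A b a := by
  rintro a b ⟨h, h'⟩
  exact ⟨h.symm, by rw [ed_swap]; exact h'⟩

lemma not_red {A : Set (EK n)} {a b : Fin n} (h : a ≠ b) : ¬ red A a b ↔ red Aᶜ a b := by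
  unfold red
  constructor
  · intro h1
    exact ⟨h, fun h2 => h1 ⟨h, h2⟩⟩
  · rintro ⟨_, h1⟩ ⟨_, h2⟩
    exact h1 h2

/-- explicit form of a packing of cherries -/
lemma HasC.toFun {c : Fin n → Fin n → Prop} : ∀ (k : ℕ) (s : Finset (Fin n)), HasC c k s →
    ∃ p q r : Fin k → Fin n, (∀ i, p i ∈ s ∧ q i ∈ s ∧ r i ∈ s ∧ p i ≠ q i ∧ p i ≠ r i ∧
      q i ≠ r i ∧ c (p i) (q i) ∧ ¬ c (p i) (r i)) ∧
      ∀ i j, i ≠ j → ∀ x, (x = p i ∨ x = q i ∨ x = r i) → ¬ (x = p j ∨ x = q j ∨ x = r j) := by
  intro k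
  induction k with
  | zero =>
    intro s _
    exact ⟨Fin.elim0, Fin.elim0, Fin.elim0, fun i => i.elim0, fun i => i.elim0⟩
  | succ k ih =>
    rintro s ⟨a, b, d, ha, hb, hd, h1, h2, h3, h4, h5, h6⟩
    obtain ⟨p, q, r, hp, hd'⟩ := ih _ h6
    have hmem : ∀ x, x ∈ s \ {a, b, d} ↔ x ∈ s ∧ ¬ (x = a ∨ x = b ∨ x = d) := by
      intro x; simp
    have key : ∀ (j : Fin k) (x : Fin n), (x = p j ∨ x = q j ∨ x = r j) →
        ¬ (x = a ∨ x = b ∨ x = d) := by
      intro j x hx
      obtain ⟨e1, e2, e3, _⟩ := hp j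
      rw [hmem] at e1 e2 e3
      rcases hx with rfl | rfl | rfl
      · exact e1.2
      · exact e2.2
      · exact e3.2
    refine ⟨Fin.cons a p, Fin.cons b q, Fin.cons d r, ?_, ?_⟩
    · intro i
      refine Fin.cases ?_ (fun j => ?_) i
      · exact ⟨ha, hb, hd, h1, h2, h3, h4, h5⟩
      · obtain ⟨e1, e2, e3, e4⟩ := hp j
        rw [hmem] at e1 e2 e3
        exact ⟨e1.1, e2.1, e3.1, e4⟩
    · intro i j
      refine Fin.cases ?_ (fun i' => ?_) i
      · refine Fin.cases ?_ (fun j' => ?_) j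
        · intro h; exact absurd rfl h
        · intro _ x hx hx'
          exact key j' x hx' hx
      · refine Fin.cases ?_ (fun j' => ?_) j
        · intro _ x hx
          exact key i' x hx
        · intro hij x hx hx'
          exact hd' i' j' (fun h => hij (by rw [h])) x hx hx'

lemma adj_iff {e f : EK n} : (LK n).Adj e f ↔ e ≠ f ∧ ∃ v, v ∈ (e : Sym2 (Fin n)) ∧
    v ∈ (f : Sym2 (Fin n)) := lineGraph_adj_iff_exists

lemma mem_ed {a b x : Fin n} {h : a ≠ b} : x ∈ ((ed a b h : EK n) : Sym2 (Fin n)) ↔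
    x = a ∨ x = b := by
  simp [ed]

/-- disjoint bichromatic cherries give an induced matching across the cut -/
theorem cross_of_hasC {A : Set (EK n)} {k : ℕ} {s : Finset (Fin n)} (h : HasC (red A) k s) :
    CrossIM (LK n) A k := by
  obtain ⟨p, q, r, hp, hd⟩ := HasC.toFun k s h
  refine ⟨fun i => ed (p i) (q i) (hp i).2.2.2.1, fun i => ed (p i) (r i) (hp i).2.2.2.2.1, ?_, ?_⟩
  · intro i
    obtain ⟨_, _, _, h1, h2, h3, h4, h5⟩ := hp i
    obtain ⟨_, h4⟩ := h4
    refine ⟨h4, fun h => h5 ⟨h2, h⟩, ?_⟩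
    rw [adj_iff]
    refine ⟨?_, p i, by rw [mem_ed]; exact Or.inl rfl, by rw [mem_ed]; exact Or.inl rfl⟩
    intro he
    have he' : ed (p i) (q i) h1 = ed (p i) (r i) h2 := he
    have : q i ∈ ((ed (p i) (r i) h2 : EK n) : Sym2 (Fin n)) := by
      rw [← he', mem_ed]; exact Or.inr rfl
    rw [mem_ed] at this
    rcases this with h | h
    · exact h1 h.symm
    · exact h3 h
  · intro i j hij
    refine ⟨?_, ?_, ?_⟩
    · rintro hadj
      rw [adj_iff] at hadj
      obtain ⟨_, v, h1, h2⟩ := hadj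
      rw [mem_ed] at h1 h2
      exact hd i j hij v (by tauto) (by tauto)
    · rintro hadj
      rw [adj_iff] at hadj
      obtain ⟨_, v, h1, h2⟩ := hadj
      rw [mem_ed] at h1 h2
      exact hd i j hij v (by tauto) (by tauto)
    · rintro hadj
      rw [adj_iff] at hadj
      obtain ⟨_, v, h1, h2⟩ := hadj
      rw [mem_ed] at h1 h2
      exact hd i j hij v (by tauto) (by tauto)

/-- both sides have a large matching: the cut has large value -/
theorem cross_of_both {A : Set (EK n)} {m : ℕ} (hn : 4 * m + 2 ≤ n)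
    (h1 : HasM (red A) (univ : Finset (Fin n)) (m + 1))
    (h2 : HasM (red Aᶜ) (univ : Finset (Fin n)) (m + 1)) : CrossIM (LK n) A (m + 1) := by
  have h3 : HasM (fun a b => ¬ red A a b) (univ : Finset (Fin n)) (m + 1) :=
    h2.congr fun a _ b _ hab h => (not_red hab).2 h
  exact cross_of_hasC (two_colours (red_symm A) (m + 1) univ h1 h3
    (by rw [card_univ, Fintype.card_fin]; omega))

section tree

variable (D : BranchDec (EK n))

lemma side_compl {u w : D.Node} (h : D.T.Adj u w) : D.side w u = (D.side u w)ᶜ := by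
  ext x
  have h1 := rch_cover D.isTree.connected.preconnected u w (D.leaf x).1
  have h2 := rch_bridge D.isTree.isAcyclic h
  have e1 : x ∈ D.side u w ↔ Rch D.T u w (D.leaf x).1 := Iff.rfl
  have e2 : x ∈ D.side w u ↔ Rch D.T w u (D.leaf x).1 := Iff.rfl
  rw [Set.mem_compl_iff, e1, e2]
  constructor
  · intro h3 h4
    apply h2
    have h5 : (D.T.deleteEdges {s(u, w)}).Reachable w (D.leaf x).1 := by
      have : s(u, w) = s(w, u) := Sym2.eq_swap
      rw [this]; exact h3
    exact h4.trans h5.symm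
  · intro h3
    exact h1.resolve_left h3

/-- a finite tree with an orientation of its edges has a sink -/
theorem exists_sink (B : D.Node → D.Node → Prop)
    (hB : ∀ u w, D.T.Adj u w → B u w → ¬ B w u) (hB' : ∀ u w, D.T.Adj u w → B u w ∨ B w u)
    (hne : ∃ u w, D.T.Adj u w) :
    ∃ w, (∃ u, D.T.Adj u w) ∧ ∀ x, D.T.Adj x w → ¬ B x w := by
  have := D.finite
  let Wt : D.Node × D.Node → ℕ := fun p => {z | Rch D.T p.2 p.1 z}.ncard
  have hex : ∃ p : D.Node × D.Node, D.T.Adj p.1 p.2 ∧ B p.2 p.1 := by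
    obtain ⟨u, w, huw⟩ := hne
    rcases hB' u w huw with h | h
    · exact ⟨(w, u), huw.symm, h⟩
    · exact ⟨(u, w), huw, h⟩
  obtain ⟨⟨u, w⟩, ⟨hadj, hbig⟩, hmin⟩ := exists_minimalFor_of_wellFoundedLT
    (fun p : D.Node × D.Node => D.T.Adj p.1 p.2 ∧ B p.2 p.1) Wt hex
  simp only at hadj hbig hmin
  refine ⟨w, ⟨u, hadj⟩, ?_⟩
  intro x hx hBx
  by_cases hxu : x = u
  · subst hxu
    exact hB w x hadj.symm hbig hBx
  · have h2 : Wt (u, w) ≤ Wt (w, x) := by
      by_contra hlt
      have h3 : Wt (w, x) ≤ Wt (u, w) := by omega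
      have := hmin (j := (w, x)) ⟨hx.symm, hBx⟩ h3
      omega
    have h3 : {z | Rch D.T x w z} ⊂ {z | Rch D.T w u z} := by
      refine ⟨fun z hz => rch_sub D.isTree.isAcyclic hx.symm hxu hz, fun hcon' => ?_⟩
      exact rch_bridge D.isTree.isAcyclic hx (hcon' (SimpleGraph.Reachable.refl w))
    have h4 := Set.ncard_lt_ncard h3 (Set.toFinite _)
    simp only [Wt] at h2
    omega

end tree

lemma hasM_one {A : Set (EK n)} {e : EK n} (he : e ∈ A) :
    HasM (red A) (univ : Finset (Fin n)) 1 := by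
  obtain ⟨e, he'⟩ := e
  induction e using Sym2.ind with
  | _ a b =>
    have hab : a ≠ b := by simpa using he'
    exact HasM.add (mem_univ a) (mem_univ b) hab ⟨hab, he⟩ (hasM_zero ∅) (empty_subset _) (by simp)
      (by simp)

lemma hasM_two_sub {A : Set (EK n)} {e : EK n} (hA : ∀ x ∈ A, x = e) {k : ℕ} :
    ¬ HasM (red A) (univ : Finset (Fin n)) (k + 2) := by
  intro h
  obtain ⟨t, -, htc, hP⟩ := h
  have hne : t.Nonempty := by rw [← card_pos, htc]; omega
  obtain ⟨a, ha⟩ := hne
  obtain ⟨b, hb, hba, ⟨hab1, hab⟩, hP'⟩ := hP.partner (red_symm A) a ha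
  have hne' : ((t.erase a).erase b).Nonempty := by
    rw [← card_pos, card_erase_of_mem (mem_erase.2 ⟨hba, hb⟩), card_erase_of_mem ha, htc]; omega
  obtain ⟨x, hx⟩ := hne'
  obtain ⟨y, hy, hyx, ⟨hxy1, hxy⟩, _⟩ := hP'.partner (red_symm A) x hx
  have h1 := hA _ hab
  have h2 := hA _ hxy
  have h3 : x ∈ ((ed a b hab1 : EK n) : Sym2 (Fin n)) := by
    rw [h1, ← h2, mem_ed]; exact Or.inl rfl
  rw [mem_ed] at h3
  simp only [mem_erase] at hx
  rcases h3 with h3 | h3
  · exact hx.2.1 h3
  · exact hx.1 h3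

/-- **Lower bound.** -/
theorem lower (D : BranchDec (EK n)) {m : ℕ} (hn : 4 * m + 2 ≤ n) (hn3 : 3 ≤ n)
    (hD : ∀ u w, D.T.Adj u w → ¬ CrossIM (LK n) (D.side u w) (m + 1)) : False := by
  classical
  have := D.finite
  -- the big sides
  let B : D.Node → D.Node → Prop := fun u w => HasM (red (D.side u w)) (univ : Finset (Fin n)) (m + 1)
  have hB : ∀ u w, D.T.Adj u w → B u w → ¬ B w u := by
    intro u w huw h1 h2
    apply hD u w huw
    apply cross_of_both hn h1
    rw [← side_compl D huw]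
    exact h2
  have hB' : ∀ u w, D.T.Adj u w → B u w ∨ B w u := by
    intro u w huw
    rcases two_mono (red_symm (D.side u w)) m univ
      (by rw [card_univ, Fintype.card_fin]; omega) with h | h
    · exact Or.inl h
    · right
      change HasM (red (D.side w u)) univ (m + 1)
      rw [side_compl D huw]
      exact h.congr fun a _ b _ hab h' => (not_red hab).1 h'
  -- two different edges
  have h01 : (⟨0, by omega⟩ : Fin n) ≠ ⟨1, by omega⟩ := by simp
  have h02 : (⟨0, by omega⟩ : Fin n) ≠ ⟨2, by omega⟩ := by simp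
  have hne2 : (ed _ _ h01 : EK n) ≠ ed _ _ h02 := by
    intro h
    have : (⟨1, by omega⟩ : Fin n) ∈ ((ed _ _ h02 : EK n) : Sym2 (Fin n)) := by
      rw [← h, mem_ed]; exact Or.inr rfl
    rw [mem_ed] at this
    simp at this
  have hother : ∀ e : EK n, ∃ e', e' ≠ e := by
    intro e
    by_cases h : ed _ _ h01 = e
    · exact ⟨ed _ _ h02, fun h' => hne2 (h.trans h'.symm)⟩
    · exact ⟨_, h⟩
  have hne : ∃ u w, D.T.Adj u w := by
    have h1 := (D.leaf (ed _ _ h01)).2
    obtain ⟨x, hx⟩ := Set.ncard_eq_one.1 h1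
    have hx' : x ∈ D.T.neighborSet (D.leaf (ed _ _ h01)).1 := by rw [hx]; rfl
    exact ⟨_, x, hx'⟩
  obtain ⟨w, ⟨u, huw⟩, hsink⟩ := exists_sink D B hB hB' hne
  rcases D.degree w with hdeg | hdeg
  · -- a leaf
    obtain ⟨e, he⟩ : ∃ e, D.leaf e = ⟨w, hdeg⟩ := D.leaf.surjective _
    obtain ⟨u', hu'⟩ := Set.ncard_eq_one.1 hdeg
    have huu : u' = u := by
      have : u ∈ D.T.neighborSet w := huw.symm
      rw [hu'] at this
      exact this.symm
    subst huu
    have hside : ∀ x ∈ D.side w u', x = e := by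
      intro x hx
      rcases rch_split D.isTree.isAcyclic (T := D.T) (v := w) (u := u') hx with h | ⟨y, hy, hyu, _⟩
      · apply D.leaf.injective
        rw [he]
        exact Subtype.ext h
      · exfalso
        have : y ∈ D.T.neighborSet w := hy
        rw [hu'] at this
        exact hyu this
    have hbig : B w u' := (hB' w u' huw.symm).resolve_right (hsink u' huw)
    rcases Nat.eq_zero_or_pos m with rfl | hm
    · -- `m = 0`: the other side is nonempty
      obtain ⟨e', he'⟩ := hother e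
      apply hsink u' huw
      apply hasM_one (e := e')
      rw [side_compl D huw.symm]
      intro h
      exact he' (hside _ h)
    · obtain ⟨m', rfl⟩ : ∃ m', m = m' + 1 := ⟨m - 1, by omega⟩
      exact hasM_two_sub hside hbig
  · -- an internal node
    obtain ⟨x0, x1, x2, h01', h02', h12', hN⟩ := Set.ncard_eq_three.1 hdeg
    let X : Fin 3 → D.Node := ![x0, x1, x2]
    have hXadj : ∀ i, D.T.Adj (X i) w := by
      intro i
      have : X i ∈ D.T.neighborSet w := by
        rw [hN]
        fin_cases i <;> simp [X]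
      exact SimpleGraph.Adj.symm this
    have hcov : ∀ e : EK n, ∃ i, e ∈ D.side (X i) w := by
      intro e
      have hne : (D.leaf e).1 ≠ w := by
        intro h
        have := (D.leaf e).2
        rw [h, hdeg] at this
        omega
      have hnb : ∀ y, D.T.Adj w y → ∃ i, y = X i := by
        intro y hy
        have : y ∈ D.T.neighborSet w := hy
        rw [hN] at this
        simp only [Set.mem_insert_iff, Set.mem_singleton_iff] at this
        rcases this with h | h | h
        · exact ⟨0, by rw [h]; rfl⟩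
        · exact ⟨1, by rw [h]; rfl⟩
        · exact ⟨2, by rw [h]; rfl⟩
      rcases rch_cover D.isTree.connected.preconnected w (X 0) (D.leaf e).1 with h | h
      · rcases rch_split D.isTree.isAcyclic h with h' | ⟨y, hy, _, hr⟩
        · exact absurd h' hne
        · obtain ⟨i, rfl⟩ := hnb y hy
          exact ⟨i, hr⟩
      · exact ⟨0, h⟩
    choose ci hci using hcov
    let col : Fin n → Fin n → Fin 3 := fun a b => if h : a ≠ b then ci (ed a b h) else 0
    have hcol : ∀ a b, col a b = col b a := by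
      intro a b
      by_cases h : a ≠ b
      · simp only [col]
        rw [dif_pos h, dif_pos h.symm, ed_swap]
      · have : a = b := not_not.1 h
        rw [this]
    obtain ⟨i, hi⟩ := three_mono col hcol m univ (by rw [card_univ, Fintype.card_fin]; omega)
    apply hsink (X i) (hXadj i)
    refine hi.congr ?_
    intro a _ b _ hab h
    simp only [col] at h
    rw [dif_pos hab] at h
    refine ⟨hab, ?_⟩
    rw [← h]
    exact hci _

/-! ### Upper bound -/

/-- the three classes of edges -/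
noncomputable def cls (m : ℕ) (e : EK n) : Fin 3 :=
  open Classical in
  if ∃ v ∈ (e : Sym2 (Fin n)), 3 * m + 1 ≤ v.val then 2
  else if ∃ v ∈ (e : Sym2 (Fin n)), 2 * m + 1 ≤ v.val then 1 else 0

lemma cls_zero {m : ℕ} {e : EK n} (h : cls m e = 0) :
    ¬ ∃ v ∈ (e : Sym2 (Fin n)), 2 * m + 1 ≤ v.val := by
  classical
  unfold cls at h
  by_cases h2 : ∃ v ∈ (e : Sym2 (Fin n)), 3 * m + 1 ≤ v.val
  · rw [if_pos h2] at h
    exact absurd h (by decide)
  · rw [if_neg h2] at h
    intro h3
    rw [if_pos h3] at h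
    exact absurd h (by decide)

lemma cls_one {m : ℕ} {e : EK n} (h : cls m e = 1) :
    (∃ v ∈ (e : Sym2 (Fin n)), 2 * m + 1 ≤ v.val) ∧
    ¬ ∃ v ∈ (e : Sym2 (Fin n)), 3 * m + 1 ≤ v.val := by
  classical
  unfold cls at h
  by_cases h2 : ∃ v ∈ (e : Sym2 (Fin n)), 3 * m + 1 ≤ v.val
  · rw [if_pos h2] at h
    exact absurd h (by decide)
  · rw [if_neg h2] at h
    refine ⟨?_, h2⟩
    by_contra h3
    rw [if_neg h3] at h
    exact absurd h (by decide)

lemma cls_two {m : ℕ} {e : EK n} (h : cls m e = 2) :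
    ∃ v ∈ (e : Sym2 (Fin n)), 3 * m + 1 ≤ v.val := by
  classical
  unfold cls at h
  by_contra h2
  rw [if_neg h2] at h
  by_cases h3 : ∃ v ∈ (e : Sym2 (Fin n)), 2 * m + 1 ≤ v.val
  · rw [if_pos h3] at h
    exact absurd h (by decide)
  · rw [if_neg h3] at h
    exact absurd h (by decide)

/-- pairwise disjoint edges of one class -/
lemma cls_bound {m : ℕ} (hn : n ≤ 4 * m + 1) (j : Fin 3) (a : Fin (m + 1) → EK n)
    (ha : ∀ i, cls m (a i) = j)
    (hd : ∀ i i', i ≠ i' → ∀ v, v ∈ (a i : Sym2 (Fin n)) → v ∉ (a i' : Sym2 (Fin n))) : False := by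
  classical
  have hj : j = 0 ∨ j = 1 ∨ j = 2 := by fin_cases j <;> simp
  rcases hj with rfl | rfl | rfl
  · -- class 0
    have h0 : ∀ i, ∀ v ∈ (a i : Sym2 (Fin n)), v.val < 2 * m + 1 := by
      intro i v hv
      by_contra hcon
      exact cls_zero (ha i) ⟨v, hv, by omega⟩
    -- choose both ends
    have hxy : ∀ i, ∃ x y : Fin n, x ≠ y ∧ (a i : Sym2 (Fin n)) = s(x, y) := by
      intro i
      obtain ⟨e, he⟩ := a i
      induction e using Sym2.ind with
      | _ x y => exact ⟨x, y, by simpa using he, rfl⟩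
    choose x y hxy1 hxy2 using hxy
    have hx : ∀ i, x i ∈ (a i : Sym2 (Fin n)) := fun i => by rw [hxy2]; simp
    have hy : ∀ i, y i ∈ (a i : Sym2 (Fin n)) := fun i => by rw [hxy2]; simp
    let f : Fin (m + 1) ⊕ Fin (m + 1) → Fin (2 * m + 1) :=
      Sum.elim (fun i => ⟨(x i).val, h0 i _ (hx i)⟩) (fun i => ⟨(y i).val, h0 i _ (hy i)⟩)
    have hf : Function.Injective f := by
      rintro (i | i) (i' | i') h
      · simp only [f, Sum.elim_inl, Fin.mk.injEq] at h
        have h' := Fin.ext h
        by_contra hne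
        have hii : i ≠ i' := fun h => hne (by rw [h])
        exact hd i i' hii _ (hx i) (h' ▸ hx i')
      · simp only [f, Sum.elim_inl, Sum.elim_inr, Fin.mk.injEq] at h
        have h' := Fin.ext h
        exfalso
        by_cases hii : i = i'
        · subst hii; exact hxy1 i h'
        · exact hd i i' hii _ (hx i) (h' ▸ hy i')
      · simp only [f, Sum.elim_inl, Sum.elim_inr, Fin.mk.injEq] at h
        have h' := Fin.ext h
        exfalso
        by_cases hii : i = i'
        · subst hii; exact hxy1 i h'.symm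
        · exact hd i i' hii _ (hy i) (h' ▸ hx i')
      · simp only [f, Sum.elim_inr, Fin.mk.injEq] at h
        have h' := Fin.ext h
        by_contra hne
        have hii : i ≠ i' := fun h => hne (by rw [h])
        exact hd i i' hii _ (hy i) (h' ▸ hy i')
    have := Fintype.card_le_of_injective f hf
    simp only [Fintype.card_sum, Fintype.card_fin] at this
    omega
  · -- class 1
    have h0 : ∀ i, ∃ v ∈ (a i : Sym2 (Fin n)), 2 * m + 1 ≤ v.val ∧ v.val < 3 * m + 1 := by
      intro i
      obtain ⟨⟨v, hv, hv'⟩, h2⟩ := cls_one (ha i)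
      refine ⟨v, hv, hv', ?_⟩
      by_contra hcon
      exact h2 ⟨v, hv, by omega⟩
    choose v hv h1 h2 using h0
    let f : Fin (m + 1) → Fin m := fun i => ⟨(v i).val - (2 * m + 1), by
      have := h1 i; have := h2 i; omega⟩
    have hf : Function.Injective f := by
      intro i i' h
      simp only [f, Fin.mk.injEq] at h
      have h' : v i = v i' := Fin.ext (by have := h1 i; have := h1 i'; omega)
      by_contra hne
      exact hd i i' hne _ (hv i) (h' ▸ hv i')
    have := Fintype.card_le_of_injective f hf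
    simp only [Fintype.card_fin] at this
    omega
  · -- class 2
    have h0 : ∀ i, ∃ v ∈ (a i : Sym2 (Fin n)), 3 * m + 1 ≤ v.val := fun i => cls_two (ha i)
    choose v hv h1 using h0
    let f : Fin (m + 1) → Fin m := fun i => ⟨(v i).val - (3 * m + 1), by
      have := h1 i; have := (v i).isLt; omega⟩
    have hf : Function.Injective f := by
      intro i i' h
      simp only [f, Fin.mk.injEq] at h
      have h' : v i = v i' := Fin.ext (by have := h1 i; have := h1 i'; omega)
      by_contra hne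
      exact hd i i' hne _ (hv i) (h' ▸ hv i')
    have := Fintype.card_le_of_injective f hf
    simp only [Fintype.card_fin] at this
    omega

/-- a cut one of whose sides lies in a class has small value -/
lemma cut_small {m : ℕ} (hn : n ≤ 4 * m + 1) {A : Set (EK n)} {j : Fin 3}
    (h : (∀ x, x ∈ A → cls m x = j) ∨ (∀ x, x ∉ A → cls m x = j)) :
    ¬ CrossIM (LK n) A (m + 1) := by
  rintro ⟨a, b, h1, h2⟩
  have hdist : ∀ e f : EK n, e ≠ f → ¬ (LK n).Adj e f → ∀ v, v ∈ (e : Sym2 (Fin n)) →
      v ∉ (f : Sym2 (Fin n)) := by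
    intro e f hef hadj v hv hv'
    exact hadj (adj_iff.2 ⟨hef, v, hv, hv'⟩)
  rcases h with h | h
  · refine cls_bound hn j a (fun i => h _ (h1 i).1) ?_
    intro i i' hii
    refine hdist _ _ ?_ (h2 i i' hii).1
    intro he
    exact (h2 i i' hii).2.2 (he ▸ (h1 i').2.2)
  · refine cls_bound hn j b (fun i => h _ (h1 i).2.1) ?_
    intro i i' hii
    refine hdist _ _ ?_ (h2 i i' hii).2.1
    intro he
    exact (h2 i i' hii).2.2 (he ▸ (h1 i).2.2)

/-- the branch decomposition -/
theorem upper {m : ℕ} (hn : n ≤ 4 * m + 1) (hn3 : 3 ≤ n) :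
    ∃ D : BranchDec (EK n), ∀ u w, D.T.Adj u w → simval (LK n) (D.side u w) ≤ m := by
  classical
  have hcard : 2 ≤ (univ : Finset (EK n)).card := by
    have h01 : (⟨0, by omega⟩ : Fin n) ≠ ⟨1, by omega⟩ := by simp
    have h02 : (⟨0, by omega⟩ : Fin n) ≠ ⟨2, by omega⟩ := by simp
    have hne2 : (ed _ _ h01 : EK n) ≠ ed _ _ h02 := by
      intro h
      have : (⟨1, by omega⟩ : Fin n) ∈ ((ed _ _ h02 : EK n) : Sym2 (Fin n)) := by
        rw [← h, mem_ed]; exact Or.inr rfl
      rw [mem_ed] at this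
      simp at this
    exact one_lt_card.2 ⟨_, mem_univ _, _, mem_univ _, hne2⟩
  obtain ⟨U, hU, T, L, hT, hdeg, hleaf, hinj, hcut⟩ :=
    hasDec_all (cl := cls (n := n) m) ((univ : Finset (EK n)).card - 2) univ (by omega)
  have hL : ∀ x, (T.neighborSet (L x)).ncard = 1 := fun x => (hleaf _).2 ⟨x, mem_univ x, rfl⟩
  let lf : EK n ≃ {t : U // (T.neighborSet t).ncard = 1} :=
    Equiv.ofBijective (fun x => ⟨L x, hL x⟩) ⟨by
      intro x y hxy
      exact hinj (by simp) (by simp) (congrArg Subtype.val hxy), by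
      rintro ⟨t, ht⟩
      obtain ⟨x, _, hx⟩ := (hleaf t).1 ht
      exact ⟨x, Subtype.ext hx⟩⟩
  refine ⟨⟨U, hU, T, hT, hdeg, lf⟩, ?_⟩
  intro u w huw
  apply simval_le_of
  obtain ⟨j, hj⟩ := hcut u w huw
  apply cut_small hn (j := j)
  rcases hj with hj | hj
  · left
    intro x hx
    exact hj x (mem_univ x) hx
  · right
    intro x hx
    exact hj x (mem_univ x) hx

/-- the value -/
theorem simw_eq (hn : 3 ≤ n) : simw (LK n) = (n + 2) / 4 := by
  classical
  have hcard : ¬ Nat.card (EK n) ≤ 1 := by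
    intro h
    rw [Nat.card_eq_fintype_card, Fintype.card_le_one_iff] at h
    have h01 : (⟨0, by omega⟩ : Fin n) ≠ ⟨1, by omega⟩ := by simp
    have h02 : (⟨0, by omega⟩ : Fin n) ≠ ⟨2, by omega⟩ := by simp
    have h3 := h (ed _ _ h01) (ed _ _ h02)
    have : (⟨1, by omega⟩ : Fin n) ∈ ((ed _ _ h02 : EK n) : Sym2 (Fin n)) := by
      rw [← h3, mem_ed]; exact Or.inr rfl
    rw [mem_ed] at this
    simp at this
  unfold simw
  rw [if_neg hcard]
  set m := (n + 2) / 4 with hm
  obtain ⟨D, hD⟩ := upper (n := n) (m := m) (by omega) hn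
  apply le_antisymm
  · have hmem : D.width (LK n) ∈ {k | ∃ D : BranchDec (EK n), D.width (LK n) = k} := ⟨D, rfl⟩
    exact (Nat.sInf_le hmem).trans (width_le D hD)
  · have hne : {k | ∃ D : BranchDec (EK n), D.width (LK n) = k}.Nonempty := ⟨_, D, rfl⟩
    obtain ⟨D', hD'⟩ := Nat.sInf_mem hne
    rw [← hD']
    by_contra hcon
    refine lower D' (m := m - 1) (by omega) hn ?_
    intro u w huw hc
    have h1 := le_simval hc
    have h2 := simval_le_width (G := LK n) D' huw
    omega

/-- the degenerate cases -/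
theorem simw_small (hn : n ≤ 2) : simw (LK n) = 0 := by
  classical
  have hcard : Nat.card (EK n) ≤ 1 := by
    rw [Nat.card_eq_fintype_card, Fintype.card_le_one_iff]
    rintro ⟨e, he⟩ ⟨f, hf⟩
    induction e using Sym2.ind with
    | _ a b =>
      induction f using Sym2.ind with
      | _ c d =>
        have hab : a ≠ b := by simpa using he
        have hcd : c ≠ d := by simpa using hf
        apply Subtype.ext
        change s(a, b) = s(c, d)
        rw [Sym2.eq_iff]
        have hab' : a.val ≠ b.val := fun h => hab (Fin.ext h)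
        have hcd' : c.val ≠ d.val := fun h => hcd (Fin.ext h)
        have ha := a.isLt
        have hb := b.isLt
        have hc := c.isLt
        have hd := d.isLt
        rcases Nat.lt_or_ge a.val b.val with h1 | h1 <;> rcases Nat.lt_or_ge c.val d.val with h2 | h2
        · left; exact ⟨Fin.ext (by omega), Fin.ext (by omega)⟩
        · right; exact ⟨Fin.ext (by omega), Fin.ext (by omega)⟩
        · right; exact ⟨Fin.ext (by omega), Fin.ext (by omega)⟩
        · left; exact ⟨Fin.ext (by omega), Fin.ext (by omega)⟩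
  unfold simw
  rw [if_pos hcard]

end Q109.Simw
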