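import Mathlib

/-! Matchings and bichromatic cherries in two-coloured complete graphs. -/

set_option autoImplicit false

namespace Q109.Simw

open Finset

variable {V : Type} [DecidableEq V]

/-- the vertex set `t` is the disjoint union of pairs related by `R` -/
inductive PM (R : V → V → Prop) : Finset V → Prop
  | nil : PM R ∅
  | cons (t : Finset V) (a b : V) : PM R t → a ∉ t → b ∉ t → a ≠ b → R a b →
      PM R (insert a (insert b t))

/-- `s` contains a matching of size `k` of the relation `R` -/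
def HasM (R : V → V → Prop) (s : Finset V) (k : ℕ) : Prop :=
  ∃ t, t ⊆ s ∧ t.card = 2 * k ∧ PM R t

/-- `s` contains `k` disjoint bichromatic cherries -/
def HasC (c : V → V → Prop) : ℕ → Finset V → Prop
  | 0, _ => True
  | k + 1, s => ∃ a b d, a ∈ s ∧ b ∈ s ∧ d ∈ s ∧ a ≠ b ∧ a ≠ d ∧ b ≠ d ∧ c a b ∧ ¬ c a d ∧
      HasC c k (s \ {a, b, d})

variable {R : V → V → Prop}

lemma PM.partner (hs : ∀ a b, R a b → R b a) {t : Finset V} (h : PM R t) :
    ∀ v ∈ t, ∃ u ∈ t, u ≠ v ∧ R v u ∧ PM R ((t.erase v).erase u) := by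
  induction h with
  | nil => intro v hv; exact absurd hv (notMem_empty v)
  | cons t a b ht ha hb hab hR ih =>
    intro v hv
    rw [mem_insert, mem_insert] at hv
    rcases hv with rfl | rfl | hv
    · refine ⟨b, by simp, hab.symm, hR, ?_⟩
      have : ((insert v (insert b t)).erase v).erase b = t := by
        ext x
        simp only [mem_erase, mem_insert]
        constructor
        · rintro ⟨h1, h2, h3 | h3 | h3⟩
          · exact absurd h3 h2
          · exact absurd h3 h1
          · exact h3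
        · intro hx
          exact ⟨fun h => hb (h ▸ hx), fun h => ha (h ▸ hx), Or.inr (Or.inr hx)⟩
      rw [this]; exact ht
    · refine ⟨a, by simp, hab, hs _ _ hR, ?_⟩
      have : ((insert a (insert v t)).erase v).erase a = t := by
        ext x
        simp only [mem_erase, mem_insert]
        constructor
        · rintro ⟨h1, h2, h3 | h3 | h3⟩
          · exact absurd h3 h1
          · exact absurd h3 h2
          · exact h3
        · intro hx
          exact ⟨fun h => ha (h ▸ hx), fun h => hb (h ▸ hx), Or.inr (Or.inr hx)⟩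
      rw [this]; exact ht
    · obtain ⟨u, hu, huv, hvu, hP⟩ := ih v hv
      refine ⟨u, by simp [hu], huv, hvu, ?_⟩
      have hav : a ≠ v := fun h => ha (h ▸ hv)
      have hbv : b ≠ v := fun h => hb (h ▸ hv)
      have hau : a ≠ u := fun h => ha (h ▸ hu)
      have hbu : b ≠ u := fun h => hb (h ▸ hu)
      have : ((insert a (insert b t)).erase v).erase u =
          insert a (insert b ((t.erase v).erase u)) := by
        ext x
        simp only [mem_erase, mem_insert]
        constructor
        · rintro ⟨h1, h2, h3 | h3 | h3⟩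
          · exact Or.inl h3
          · exact Or.inr (Or.inl h3)
          · exact Or.inr (Or.inr ⟨h1, h2, h3⟩)
        · rintro (rfl | rfl | ⟨h1, h2, h3⟩)
          · exact ⟨hau, hav, Or.inl rfl⟩
          · exact ⟨hbu, hbv, Or.inr (Or.inl rfl)⟩
          · exact ⟨h1, h2, Or.inr (Or.inr h3)⟩
      rw [this]
      exact PM.cons _ _ _ hP (by simp [ha]) (by simp [hb]) hab hR

lemma HasM.mono {s s' : Finset V} {k : ℕ} (h : HasM R s k) (hss : s ⊆ s') : HasM R s' k := by
  obtain ⟨t, h1, h2, h3⟩ := h
  exact ⟨t, h1.trans hss, h2, h3⟩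

lemma hasM_zero (s : Finset V) : HasM R s 0 := ⟨∅, empty_subset _, by simp, PM.nil⟩

lemma HasM.card_le {s : Finset V} {k : ℕ} (h : HasM R s k) : 2 * k ≤ s.card := by
  obtain ⟨t, h1, h2, _⟩ := h
  rw [← h2]
  exact card_le_card h1

/-- deleting a vertex destroys at most one edge -/
lemma HasM.erase (hs : ∀ a b, R a b → R b a) {s : Finset V} {k : ℕ} (h : HasM R s (k + 1))
    (v : V) : HasM R (s.erase v) k := by
  obtain ⟨t, h1, h2, h3⟩ := h
  by_cases hv : v ∈ t
  · obtain ⟨u, hu, huv, _, hP⟩ := h3.partner hs v hv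
    refine ⟨(t.erase v).erase u, ?_, ?_, hP⟩
    · intro x hx
      simp only [mem_erase] at hx ⊢
      exact ⟨hx.2.1, h1 hx.2.2⟩
    · rw [card_erase_of_mem (mem_erase.2 ⟨huv, hu⟩), card_erase_of_mem hv, h2]
      omega
  · -- drop any edge
    have hne : t.Nonempty := by
      rw [← card_pos, h2]; omega
    obtain ⟨w, hw⟩ := hne
    obtain ⟨u, hu, huv, _, hP⟩ := h3.partner hs w hw
    refine ⟨(t.erase w).erase u, ?_, ?_, hP⟩
    · intro x hx
      simp only [mem_erase] at hx ⊢
      exact ⟨fun h => hv (h ▸ hx.2.2), h1 hx.2.2⟩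
    · rw [card_erase_of_mem (mem_erase.2 ⟨huv, hu⟩), card_erase_of_mem hw, h2]
      omega

lemma HasM.pred (hs : ∀ a b, R a b → R b a) {s : Finset V} {k : ℕ} (h : HasM R s (k + 1)) :
    HasM R s k := by
  by_cases hne : s.Nonempty
  · obtain ⟨v, _⟩ := hne
    exact (h.erase hs v).mono (erase_subset _ _)
  · rw [not_nonempty_iff_eq_empty] at hne
    have := h.card_le
    rw [hne, card_empty] at this
    omega

lemma HasM.le (hs : ∀ a b, R a b → R b a) {s : Finset V} {k j : ℕ} (h : HasM R s (k + j)) :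
    HasM R s k := by
  induction j with
  | zero => exact h
  | succ j ih => exact ih (HasM.pred hs (by rw [← add_assoc] at h; exact h))

lemma HasM.le' (hs : ∀ a b, R a b → R b a) {s : Finset V} {k l : ℕ} (h : HasM R s l)
    (hkl : k ≤ l) : HasM R s k := by
  obtain ⟨j, rfl⟩ := Nat.exists_eq_add_of_le hkl
  exact h.le hs

lemma HasM.add {s : Finset V} {k : ℕ} {a b : V} (ha : a ∈ s) (hb : b ∈ s) (hab : a ≠ b)
    (hR : R a b) {s' : Finset V} (h : HasM R s' k) (hs' : s' ⊆ s) (ha' : a ∉ s') (hb' : b ∉ s') :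
    HasM R s (k + 1) := by
  obtain ⟨t, h1, h2, h3⟩ := h
  have hat : a ∉ t := fun h => ha' (h1 h)
  have hbt : b ∉ t := fun h => hb' (h1 h)
  refine ⟨insert a (insert b t), ?_, ?_, PM.cons _ _ _ h3 hat hbt hab hR⟩
  · intro x hx
    rw [mem_insert, mem_insert] at hx
    rcases hx with rfl | rfl | hx
    · exact ha
    · exact hb
    · exact hs' (h1 hx)
  · rw [card_insert_of_notMem (by simp [hab, hat]), card_insert_of_notMem hbt, h2]
    ring

lemma HasC.mono {c : V → V → Prop} : ∀ {k : ℕ} {s s' : Finset V}, HasC c k s → s ⊆ s' →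
    HasC c k s'
  | 0, _, _, _, _ => trivial
  | k + 1, s, s', ⟨a, b, d, ha, hb, hd, h1, h2, h3, h4, h5, h6⟩, hss =>
      ⟨a, b, d, hss ha, hss hb, hss hd, h1, h2, h3, h4, h5,
        HasC.mono h6 (sdiff_subset_sdiff hss subset_rfl)⟩

lemma HasC.compl {c : V → V → Prop} : ∀ {k : ℕ} {s : Finset V}, HasC c k s →
    HasC (fun a b => ¬ c a b) k s
  | 0, _, _ => trivial
  | k + 1, s, ⟨a, b, d, ha, hb, hd, h1, h2, h3, h4, h5, h6⟩ =>
      ⟨a, d, b, ha, hd, hb, h2, h1, h3.symm, h5, not_not.2 h4, by
        have : ({a, d, b} : Finset V) = {a, b, d} := by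
          ext x; simp only [mem_insert, mem_singleton]; tauto
        rw [this]
        exact HasC.compl h6⟩

lemma HasC.of_compl {c : V → V → Prop} {k : ℕ} {s : Finset V}
    (h : HasC (fun a b => ¬ c a b) k s) : HasC c k s := by
  have := h.compl
  simpa only [not_not] using this

/-- bichromatic triple gives a cherry -/
lemma cherry_of_red {c : V → V → Prop} (hs : ∀ a b, c a b → c b a) {a b w : V} (hab : a ≠ b)
    (haw : a ≠ w) (hbw : b ≠ w) (h1 : c a b) (h2 : ¬ (c a w ∧ c b w)) {k : ℕ} {s : Finset V}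
    (ha : a ∈ s) (hb : b ∈ s) (hw : w ∈ s) (h : HasC c k (s \ {a, b, w})) : HasC c (k + 1) s := by
  by_cases h3 : c a w
  · have h4 : ¬ c b w := fun h => h2 ⟨h3, h⟩
    refine ⟨b, a, w, hb, ha, hw, hab.symm, hbw, haw, hs _ _ h1, h4, ?_⟩
    have : ({b, a, w} : Finset V) = {a, b, w} := by
      ext x; simp only [mem_insert, mem_singleton]; tauto
    rw [this]; exact h
  · exact ⟨a, b, w, ha, hb, hw, hab, haw, hbw, h1, h3, h⟩

/-- if the matching number is exactly `k` and there is room, every matching edge gets its own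
third vertex -/
theorem hasC_of_max {c : V → V → Prop} (hs : ∀ a b, c a b → c b a) :
    ∀ (k : ℕ) (s : Finset V), HasM c s k → ¬ HasM c s (k + 1) → 3 * k + 1 ≤ s.card →
      HasC c k s := by
  intro k
  induction k with
  | zero => intro s _ _ _; trivial
  | succ k ih =>
    intro s hk hk1 hcard
    obtain ⟨t, hts, htc, hP⟩ := hk
    have hne : t.Nonempty := by rw [← card_pos, htc]; omega
    obtain ⟨a, ha⟩ := hne
    obtain ⟨b, hb, hba, hab, hP'⟩ := hP.partner hs a ha
    set t' := (t.erase a).erase b with ht'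
    have ht'c : t'.card = 2 * k := by
      rw [ht', card_erase_of_mem (mem_erase.2 ⟨hba, hb⟩), card_erase_of_mem ha, htc]; omega
    have hW : 2 ≤ (s \ t).card := by
      rw [card_sdiff_of_subset hts, htc]; omega
    obtain ⟨w1, hw1, w2, hw2, hw12⟩ := one_lt_card.1 (show 1 < (s \ t).card by omega)
    rw [mem_sdiff] at hw1 hw2
    have haw : ∀ w, w ∉ t → a ≠ w := fun w hw h => hw (h ▸ ha)
    have hbw : ∀ w, w ∉ t → b ≠ w := fun w hw h => hw (h ▸ hb)
    obtain ⟨w, hws, hwt, hw⟩ : ∃ w, w ∈ s ∧ w ∉ t ∧ ¬ (c a w ∧ c b w) := by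
      by_contra hcon
      push Not at hcon
      have h1 := hcon w1 hw1.1 hw1.2
      have h2 := hcon w2 hw2.1 hw2.2
      apply hk1
      have ht's : t' ⊆ t := (erase_subset _ _).trans (erase_subset _ _)
      have hat' : a ∉ t' := by simp [ht']
      have hbt' : b ∉ t' := by simp [ht']
      have hw1t' : w1 ∉ t' := fun h => hw1.2 (ht's h)
      have hw2t' : w2 ∉ t' := fun h => hw2.2 (ht's h)
      have e1 : HasM c (insert a (insert w1 t')) (k + 1) :=
        HasM.add (a := a) (b := w1) (by simp) (by simp) (haw w1 hw1.2) h1.1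
          (s' := t') ⟨t', subset_rfl, ht'c, hP'⟩
          (fun x hx => by simp [hx]) hat' hw1t'
      refine HasM.add (a := b) (b := w2) (hts hb) hw2.1 (hbw w2 hw2.2) h2.2 e1 ?_ ?_ ?_
      · intro x hx
        rw [mem_insert, mem_insert] at hx
        rcases hx with rfl | rfl | hx
        · exact hts ha
        · exact hw1.1
        · exact hts (ht's hx)
      · simp only [mem_insert, not_or]
        exact ⟨hba, hbw w1 hw1.2, hbt'⟩
      · simp only [mem_insert, not_or]
        exact ⟨(haw w2 hw2.2).symm, hw12.symm, hw2t'⟩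
    refine cherry_of_red hs hba.symm (haw w hwt) (hbw w hwt) hab hw (hts ha) (hts hb) hws ?_
    have ht's' : t' ⊆ s \ {a, b, w} := by
      intro x hx
      rw [ht', mem_erase, mem_erase] at hx
      simp only [mem_sdiff, mem_insert, mem_singleton, not_or]
      exact ⟨hts hx.2.2, hx.2.1, hx.1, fun h => hwt (h ▸ hx.2.2)⟩
    have hcard3 : ({a, b, w} : Finset V).card = 3 := by
      rw [card_insert_of_notMem (by simp [hba.symm, haw w hwt]),
        card_insert_of_notMem (by simp [hbw w hwt]), card_singleton]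
    have hsub3 : ({a, b, w} : Finset V) ⊆ s := by
      intro x hx
      simp only [mem_insert, mem_singleton] at hx
      rcases hx with rfl | rfl | rfl
      · exact hts ha
      · exact hts hb
      · exact hws
    apply ih
    · exact ⟨t', ht's', ht'c, hP'⟩
    · intro h
      apply hk1
      exact HasM.add (hts ha) (hts hb) hba.symm hab h sdiff_subset (by simp) (by simp)
    · rw [card_sdiff_of_subset hsub3, hcard3]; omega

end Q109.Simw
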