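import Pool.Agent.Q109.Simw.Match

/-! Two colours with large matchings give many disjoint bichromatic cherries; three colours give
a large monochromatic matching. -/

set_option autoImplicit false

namespace Q109.Simw

open Finset

variable {V : Type} [DecidableEq V] {c : V → V → Prop}

lemma HasM.get {R : V → V → Prop} (hs : ∀ a b, R a b → R b a) {s : Finset V} {k : ℕ}
    (h : HasM R s (k + 1)) : ∃ a b, a ∈ s ∧ b ∈ s ∧ a ≠ b ∧ R a b := by
  obtain ⟨t, h1, h2, h3⟩ := h
  have hne : t.Nonempty := by rw [← card_pos, h2]; omega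
  obtain ⟨a, ha⟩ := hne
  obtain ⟨b, hb, hba, hab, _⟩ := h3.partner hs a ha
  exact ⟨a, b, h1 ha, h1 hb, hba.symm, hab⟩

/-- a red edge and a blue edge give a cherry -/
lemma exists_cherry (hs : ∀ a b, c a b → c b a) {s : Finset V} {a b x y : V} (ha : a ∈ s)
    (hb : b ∈ s) (hx : x ∈ s) (hy : y ∈ s) (hab : a ≠ b) (hxy : x ≠ y) (h1 : c a b)
    (h2 : ¬ c x y) : ∃ p q r, p ∈ s ∧ q ∈ s ∧ r ∈ s ∧ p ≠ q ∧ p ≠ r ∧ q ≠ r ∧ c p q ∧ ¬ c p r := by
  by_cases hax : a = x
  · subst hax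
    exact ⟨a, b, y, ha, hb, hy, hab, hxy, fun h => h2 (h ▸ h1), h1, h2⟩
  · by_cases h3 : c a x
    · refine ⟨x, a, y, hx, ha, hy, fun h => hax h.symm, hxy, ?_, hs _ _ h3, h2⟩
      intro h
      exact h2 (h ▸ hs _ _ h3)
    · refine ⟨a, b, x, ha, hb, hx, hab, hax, ?_, h1, h3⟩
      intro h
      exact h3 (h ▸ h1)

/-- a cherry through a given vertex -/
lemma cherry_through (hs : ∀ a b, c a b → c b a) {s : Finset V} {a b x y w : V} (ha : a ∈ s)
    (hb : b ∈ s) (hx : x ∈ s) (hy : y ∈ s) (hw : w ∈ s) (hab : a ≠ b) (hxy : x ≠ y) (h1 : c a b)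
    (h2 : ¬ c x y) : ∃ p q r, p ∈ s ∧ q ∈ s ∧ r ∈ s ∧ p ≠ q ∧ p ≠ r ∧ q ≠ r ∧ c p q ∧ ¬ c p r ∧
      (w = p ∨ w = q ∨ w = r) := by
  by_cases hr : ∃ q ∈ s, q ≠ w ∧ c w q
  · by_cases hbl : ∃ r ∈ s, r ≠ w ∧ ¬ c w r
    · obtain ⟨q, hq, hqw, hq'⟩ := hr
      obtain ⟨r, hr, hrw, hr'⟩ := hbl
      exact ⟨w, q, r, hw, hq, hr, hqw.symm, hrw.symm, fun h => hr' (h ▸ hq'), hq', hr', Or.inl rfl⟩
    · push Not at hbl
      have hxw : x ≠ w := by
        rintro rfl
        exact h2 (hbl y hy hxy.symm)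
      have hyw : y ≠ w := by
        rintro rfl
        exact h2 (hs _ _ (hbl x hx hxy))
      exact ⟨x, w, y, hx, hw, hy, hxw, hxy, hyw.symm, hs _ _ (hbl x hx hxw), h2,
        Or.inr (Or.inl rfl)⟩
  · push Not at hr
    have haw : a ≠ w := by
      rintro rfl
      exact hr b hb hab.symm h1
    have hbw : b ≠ w := by
      rintro rfl
      exact hr a ha hab (hs _ _ h1)
    exact ⟨a, b, w, ha, hb, hw, hab, haw, hbw, h1, fun h => hr a ha haw (hs _ _ h),
      Or.inr (Or.inr rfl)⟩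

lemma card_triple {a b d : V} (h1 : a ≠ b) (h2 : a ≠ d) (h3 : b ≠ d) :
    ({a, b, d} : Finset V).card = 3 := by
  rw [card_insert_of_notMem (by simp [h1, h2]), card_insert_of_notMem (by simp [h3]),
    card_singleton]

lemma triple_subset {s : Finset V} {a b d : V} (ha : a ∈ s) (hb : b ∈ s) (hd : d ∈ s) :
    ({a, b, d} : Finset V) ⊆ s := by
  intro x hx
  simp only [mem_insert, mem_singleton] at hx
  rcases hx with rfl | rfl | rfl <;> assumption

/-- deleting a triple containing a vertex outside the matching -/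
lemma HasM.sdiff {R : V → V → Prop} (hs : ∀ a b, R a b → R b a) {s : Finset V} {k : ℕ}
    {p q r w : V} (hw : w = p ∨ w = q ∨ w = r) (h : HasM R (s.erase w) (k + 2)) :
    HasM R (s \ {p, q, r}) k := by
  rcases hw with rfl | rfl | rfl
  · refine ((h.erase hs q).erase hs r).mono ?_
    intro x hx
    simp only [mem_erase, mem_sdiff, mem_insert, mem_singleton, not_or] at hx ⊢
    tauto
  · refine ((h.erase hs p).erase hs r).mono ?_
    intro x hx
    simp only [mem_erase, mem_sdiff, mem_insert, mem_singleton, not_or] at hx ⊢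
    tauto
  · refine ((h.erase hs p).erase hs q).mono ?_
    intro x hx
    simp only [mem_erase, mem_sdiff, mem_insert, mem_singleton, not_or] at hx ⊢
    tauto

/-- rotating the missed vertex -/
lemma rotate {R : V → V → Prop} (hs : ∀ a b, R a b → R b a) {s : Finset V} {k : ℕ} {w v : V}
    (hw : w ∈ s) (hwv : w ≠ v) (hall : ∀ z ∈ s, z ≠ w → R z w)
    (h : HasM R (s.erase w) (k + 1)) : HasM R (s.erase v) (k + 1) := by
  obtain ⟨t, h1, h2, h3⟩ := h
  have hwt : w ∉ t := fun h => by simpa using h1 h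
  by_cases hv : v ∈ t
  · obtain ⟨u, hu, huv, hvu, hP⟩ := h3.partner hs v hv
    have huw : u ≠ w := fun h => hwt (h ▸ hu)
    have hus : u ∈ s := (mem_erase.1 (h1 hu)).2
    refine HasM.add (a := u) (b := w) (s' := (t.erase v).erase u) (mem_erase.2 ⟨huv, hus⟩)
      (mem_erase.2 ⟨hwv, hw⟩) huw (hall u hus huw)
      ⟨_, subset_rfl, ?_, hP⟩ ?_ (by simp) ?_
    · rw [card_erase_of_mem (mem_erase.2 ⟨huv, hu⟩), card_erase_of_mem hv, h2]; omega
    · intro x hx
      simp only [mem_erase] at hx ⊢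
      exact ⟨hx.2.1, (mem_erase.1 (h1 hx.2.2)).2⟩
    · simp only [mem_erase, not_and]
      intro _ _ h
      exact hwt h
  · refine ⟨t, ?_, h2, h3⟩
    intro x hx
    exact mem_erase.2 ⟨fun h => hv (h ▸ hx), (mem_erase.1 (h1 hx)).2⟩

lemma exists_missed {R : V → V → Prop} {s : Finset V} {k : ℕ} (h : HasM R s k)
    (hc : 2 * k < s.card) : ∃ w ∈ s, HasM R (s.erase w) k := by
  obtain ⟨t, h1, h2, h3⟩ := h
  obtain ⟨w, hw, hwt⟩ := exists_mem_notMem_of_card_lt_card (show t.card < s.card by omega)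
  refine ⟨w, hw, t, ?_, h2, h3⟩
  intro x hx
  exact mem_erase.2 ⟨fun h => hwt (h ▸ hx), h1 hx⟩

/-- reduction step: a cherry whose deletion costs at most two edges of each colour -/
theorem step (hs : ∀ a b, c a b → c b a) {s : Finset V} {k : ℕ} (hr : HasM c s (k + 2))
    (hb : HasM (fun a b => ¬ c a b) s (k + 2)) (hcard : 2 * (k + 2) < s.card) :
    ∃ p q r, p ∈ s ∧ q ∈ s ∧ r ∈ s ∧ p ≠ q ∧ p ≠ r ∧ q ≠ r ∧ c p q ∧ ¬ c p r ∧
      HasM c (s \ {p, q, r}) k ∧ HasM (fun a b => ¬ c a b) (s \ {p, q, r}) k := by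
  have hs' : ∀ a b, ¬ c a b → ¬ c b a := fun a b h h' => h (hs _ _ h')
  obtain ⟨a, b, ha, hbs, hab, hcab⟩ := hr.get hs
  obtain ⟨x, y, hx, hy, hxy, hcxy⟩ := hb.get hs'
  -- a vertex missed by both suffices
  have fin : ∀ w ∈ s, HasM c (s.erase w) (k + 2) → HasM (fun a b => ¬ c a b) (s.erase w) (k + 2) →
      ∃ p q r, p ∈ s ∧ q ∈ s ∧ r ∈ s ∧ p ≠ q ∧ p ≠ r ∧ q ≠ r ∧ c p q ∧ ¬ c p r ∧
      HasM c (s \ {p, q, r}) k ∧ HasM (fun a b => ¬ c a b) (s \ {p, q, r}) k := by
    intro w hw h1 h2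
    obtain ⟨p, q, r, hp, hq, hr', h3, h4, h5, h6, h7, h8⟩ :=
      cherry_through hs ha hbs hx hy hw hab hxy hcab hcxy
    exact ⟨p, q, r, hp, hq, hr', h3, h4, h5, h6, h7, h1.sdiff hs h8, h2.sdiff hs' h8⟩
  obtain ⟨w1, hw1, h1⟩ := exists_missed hr hcard
  obtain ⟨w2, hw2, h2⟩ := exists_missed hb hcard
  by_cases hw : w1 = w2
  · subst hw
    exact fin w1 hw1 h1 h2
  · -- look for a bichromatic triple through both
    by_cases hz : ∃ z ∈ s, z ≠ w1 ∧ z ≠ w2 ∧ ¬ ((c z w1 ↔ c w1 w2) ∧ (c z w2 ↔ c w1 w2))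
    · obtain ⟨z, hz, hz1, hz2, hz3⟩ := hz
      -- make a cherry on w1, w2, z
      obtain ⟨p, q, r, hp, hq, hr', hpq, hpr, hqr, h6, h7⟩ :
          ∃ p q r, p ∈ ({w1, w2, z} : Finset V) ∧ q ∈ ({w1, w2, z} : Finset V) ∧
            r ∈ ({w1, w2, z} : Finset V) ∧ p ≠ q ∧ p ≠ r ∧ q ≠ r ∧ c p q ∧ ¬ c p r := by
        have m1 : w1 ∈ ({w1, w2, z} : Finset V) := by simp
        have m2 : w2 ∈ ({w1, w2, z} : Finset V) := by simp
        have m3 : z ∈ ({w1, w2, z} : Finset V) := by simp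
        by_cases h12 : c w1 w2
        · by_cases hz1' : c z w1
          · have hz2' : ¬ c z w2 := by tauto
            exact exists_cherry hs m1 m2 m3 m2 hw hz2 h12 hz2'
          · exact exists_cherry hs m1 m2 m3 m1 hw hz1 h12 hz1'
        · by_cases hz1' : c z w1
          · exact exists_cherry hs m3 m1 m1 m2 hz1 hw hz1' h12
          · have hz2' : c z w2 := by tauto
            exact exists_cherry hs m3 m2 m1 m2 hz2 hw hz2' h12
      have hcov : ({p, q, r} : Finset V) = {w1, w2, z} := by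
        apply eq_of_subset_of_card_le
        · exact triple_subset hp hq hr'
        · rw [card_triple hpq hpr hqr, card_triple hw hz1.symm hz2.symm]
      have hsub : ({w1, w2, z} : Finset V) ⊆ s := triple_subset hw1 hw2 hz
      refine ⟨p, q, r, hsub hp, hsub hq, hsub hr', hpq, hpr, hqr, h6, h7, ?_, ?_⟩
      · rw [hcov]; exact h1.sdiff hs (Or.inl rfl)
      · rw [hcov]; exact h2.sdiff hs' (Or.inr (Or.inl rfl))
    · push Not at hz
      by_cases h12 : c w1 w2
      · -- w1 is red to everything, rotate the red matching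
        have hall : ∀ z ∈ s, z ≠ w1 → c z w1 := by
          intro z hz' hz1
          by_cases hz2 : z = w2
          · subst hz2; exact hs _ _ h12
          · exact (hz z hz' hz1 hz2).1.2 h12
        exact fin w2 hw2 (rotate hs hw1 hw hall h1) h2
      · have hall : ∀ z ∈ s, z ≠ w2 → ¬ c z w2 := by
          intro z hz' hz2
          by_cases hz1 : z = w1
          · subst hz1; exact h12
          · exact fun h => h12 ((hz z hz' hz1 hz2).2.1 h)
        exact fin w1 hw1 h1 (rotate hs' hw2 (Ne.symm hw) hall h2)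

/-- the case of six vertices, red matching number two -/
theorem six_two (hs : ∀ a b, c a b → c b a) {s : Finset V} (hcard : s.card = 6)
    (hr : HasM c s 2) (hr' : ¬ HasM c s 3) (hb : HasM (fun a b => ¬ c a b) s 2) :
    HasC c 2 s := by
  have hs' : ∀ a b, ¬ c a b → ¬ c b a := fun a b h h' => h (hs _ _ h')
  obtain ⟨t, hts, htc, hP⟩ := hr
  have hne : t.Nonempty := by rw [← card_pos, htc]; omega
  obtain ⟨a, ha⟩ := hne
  obtain ⟨b, hb1, hba, hab, hP'⟩ := hP.partner hs a ha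
  set t' := (t.erase a).erase b with ht'
  have ht'c : t'.card = 2 := by
    rw [ht', card_erase_of_mem (mem_erase.2 ⟨hba, hb1⟩), card_erase_of_mem ha, htc]
  have hne' : t'.Nonempty := by rw [← card_pos, ht'c]; omega
  obtain ⟨x, hx⟩ := hne'
  obtain ⟨y, hy, hyx, hxy, hP''⟩ := hP'.partner hs x hx
  have hW : (s \ t).card = 2 := by rw [card_sdiff_of_subset hts, htc, hcard]
  obtain ⟨w, v, hwv, hwv'⟩ := card_eq_two.1 hW
  have hwm : w ∈ s \ t := by rw [hwv']; simp
  have hvm : v ∈ s \ t := by rw [hwv']; simp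
  rw [mem_sdiff] at hwm hvm
  have hxt : x ≠ b ∧ x ≠ a ∧ x ∈ t := by
    rw [ht', mem_erase, mem_erase] at hx; exact ⟨hx.1, hx.2.1, hx.2.2⟩
  have hyt : y ≠ b ∧ y ≠ a ∧ y ∈ t := by
    rw [ht', mem_erase, mem_erase] at hy; exact ⟨hy.1, hy.2.1, hy.2.2⟩
  have hws : w ∈ s := hwm.1
  have hvs : v ∈ s := hvm.1
  have has : a ∈ s := hts ha
  have hbs : b ∈ s := hts hb1
  have hxs : x ∈ s := hts hxt.2.2
  have hys : y ∈ s := hts hyt.2.2
  have haw : a ≠ w := fun h => hwm.2 (h ▸ ha)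
  have hbw : b ≠ w := fun h => hwm.2 (h ▸ hb1)
  have hxw : x ≠ w := fun h => hwm.2 (h ▸ hxt.2.2)
  have hyw : y ≠ w := fun h => hwm.2 (h ▸ hyt.2.2)
  have hav : a ≠ v := fun h => hvm.2 (h ▸ ha)
  have hbv : b ≠ v := fun h => hvm.2 (h ▸ hb1)
  have hxv : x ≠ v := fun h => hvm.2 (h ▸ hxt.2.2)
  have hyv : y ≠ v := fun h => hvm.2 (h ▸ hyt.2.2)
  -- every vertex is one of the six
  have hcov : ∀ z ∈ s, z = a ∨ z = b ∨ z = x ∨ z = y ∨ z = w ∨ z = v := by
    have hc6 : ({a, b, x, y, w, v} : Finset V) = s := by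
      apply eq_of_subset_of_card_le
      · intro z hz
        simp only [mem_insert, mem_singleton] at hz
        rcases hz with rfl | rfl | rfl | rfl | rfl | rfl <;> assumption
      · rw [hcard]
        rw [card_insert_of_notMem, card_insert_of_notMem, card_insert_of_notMem,
          card_insert_of_notMem, card_insert_of_notMem, card_singleton]
        · simp [hwv]
        · simp [hyw, hyv]
        · simp [hyx.symm, hxw, hxv]
        · simp [hxt.1.symm, hyt.1.symm, hbw, hbv]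
        · simp [hba.symm, hxt.2.1.symm, hyt.2.1.symm, haw, hav]
    intro z hz
    rw [← hc6] at hz
    simpa using hz
  -- no three disjoint red edges
  have no3 : ∀ p q p' q' p'' q'' : V, p ∈ s → q ∈ s → p' ∈ s → q' ∈ s → p'' ∈ s → q'' ∈ s →
      p ≠ q → p ≠ p' → p ≠ q' → p ≠ p'' → p ≠ q'' → q ≠ p' → q ≠ q' → q ≠ p'' → q ≠ q'' →
      p' ≠ q' → p' ≠ p'' → p' ≠ q'' → q' ≠ p'' → q' ≠ q'' → p'' ≠ q'' →
      c p q → c p' q' → ¬ c p'' q'' := by
    intro p q p' q' p'' q'' h1 h2 h3 h4 h5 h6 n1 n2 n3 n4 n5 n6 n7 n8 n9 n10 n11 n12 n13 n14 n15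
      k1 k2 k3
    apply hr'
    have e0 : HasM c (∅ : Finset V) 0 := hasM_zero _
    have e1 : HasM c ({p'', q''} : Finset V) 1 :=
      HasM.add (a := p'') (b := q'') (by simp) (by simp) n15 k3 e0 (empty_subset _) (by simp)
        (by simp)
    have e2 : HasM c ({p', q', p'', q''} : Finset V) 2 :=
      HasM.add (a := p') (b := q') (by simp) (by simp) n10 k2 e1
        (fun z hz => by simp only [mem_insert, mem_singleton] at hz ⊢; tauto)
        (by simp [n11, n12]) (by simp [n13, n14])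
    exact HasM.add (a := p) (b := q) h1 h2 n1 k1 e2
        (fun z hz => by
          simp only [mem_insert, mem_singleton] at hz
          rcases hz with rfl | rfl | rfl | rfl <;> assumption)
        (by simp [n2, n3, n4, n5]) (by simp [n6, n7, n8, n9])
  have hwvb : ¬ c w v := no3 a b x y w v has hbs hxs hys hws hvs hba.symm hxt.2.1.symm
    hyt.2.1.symm haw hav hxt.1.symm hyt.1.symm hbw hbv hyx.symm hxw hxv hyw hyv hwv hab hxy
  -- assignment of third vertices
  have assign : ∀ w v : V, w ∈ s → v ∈ s → a ≠ w → b ≠ w → x ≠ w → y ≠ w → a ≠ v → b ≠ v →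
      x ≠ v → y ≠ v → w ≠ v → ¬ (c a w ∧ c b w) → ¬ (c x v ∧ c y v) → HasC c 2 s := by
    intro w v hw hv n1 n2 n3 n4 n5 n6 n7 n8 n9 h1 h2
    refine cherry_of_red hs hba.symm n1 n2 hab h1 has hbs hw ?_
    refine cherry_of_red hs hyx.symm n7 n8 hxy h2 (k := 0) ?_ ?_ ?_ trivial
    · simp only [mem_sdiff, mem_insert, mem_singleton, not_or]
      exact ⟨hxs, hxt.2.1, hxt.1, n3⟩
    · simp only [mem_sdiff, mem_insert, mem_singleton, not_or]
      exact ⟨hys, hyt.2.1, hyt.1, n4⟩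
    · simp only [mem_sdiff, mem_insert, mem_singleton, not_or]
      exact ⟨hv, n5.symm, n6.symm, n9.symm⟩
  -- the critical configuration
  have crit : ∀ w v : V, w ∈ s → v ∈ s → a ≠ w → b ≠ w → x ≠ w → y ≠ w → a ≠ v → b ≠ v →
      x ≠ v → y ≠ v → w ≠ v → ¬ c w v → (∀ z ∈ s, z = a ∨ z = b ∨ z = x ∨ z = y ∨ z = w ∨ z = v) →
      c a w → c b w → c x w → c y w → HasC c 2 s := by
    intro w v hw hv n1 n2 n3 n4 n5 n6 n7 n8 n9 hwv hcov h1 h2 h3 h4
    -- final packing
    have pack : ∀ p p' q q' : V, p ∈ s → p' ∈ s → q ∈ s → q' ∈ s → p ≠ p' → p ≠ q → p ≠ q' →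
        p' ≠ q → p' ≠ q' → q ≠ q' → p ≠ w → p ≠ v → p' ≠ w → p' ≠ v → q ≠ w → q ≠ v →
        q' ≠ w → q' ≠ v → c p' w → c q q' → ¬ c p q → HasC c 2 s := by
      intro p p' q q' m1 m2 m3 m4 e1 e2 e3 e4 e5 e6 f1 f2 f3 f4 f5 f6 f7 f8 g1 g2 g3
      refine ⟨q, q', p, m3, m4, m1, e6, e2.symm, e3.symm, g2, fun h => g3 (hs _ _ h), ?_⟩
      refine ⟨w, p', v, ?_, ?_, ?_, f3.symm, n9, f4, hs _ _ g1, hwv, trivial⟩
      · simp only [mem_sdiff, mem_insert, mem_singleton, not_or]
        exact ⟨hw, f5.symm, f7.symm, f1.symm⟩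
      · simp only [mem_sdiff, mem_insert, mem_singleton, not_or]
        exact ⟨m2, e4, e5, e1.symm⟩
      · simp only [mem_sdiff, mem_insert, mem_singleton, not_or]
        exact ⟨hv, f6.symm, f8.symm, f2.symm⟩
    by_contra hcon
    -- all four cross pairs are red
    have c1 : c a x := by
      by_contra h
      exact hcon (pack a b x y has hbs hxs hys hba.symm hxt.2.1.symm hyt.2.1.symm hxt.1.symm
        hyt.1.symm hyx.symm n1 n5 n2 n6 n3 n7 n4 n8 h2 hxy h)
    have c2 : c a y := by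
      by_contra h
      exact hcon (pack a b y x has hbs hys hxs hba.symm hyt.2.1.symm hxt.2.1.symm hyt.1.symm
        hxt.1.symm hyx n1 n5 n2 n6 n4 n8 n3 n7 h2 (hs _ _ hxy) h)
    have c3 : c b x := by
      by_contra h
      exact hcon (pack b a x y hbs has hxs hys hba hxt.1.symm hyt.1.symm hxt.2.1.symm
        hyt.2.1.symm hyx.symm n2 n6 n1 n5 n3 n7 n4 n8 h1 hxy h)
    have c4 : c b y := by
      by_contra h
      exact hcon (pack b a y x hbs has hys hxs hba hyt.1.symm hxt.1.symm hyt.2.1.symm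
        hxt.2.1.symm hyx n2 n6 n1 n5 n4 n8 n3 n7 h1 (hs _ _ hxy) h)
    -- hence every blue edge contains v
    have hblue : ∀ z ∈ s, ∀ z' ∈ s, z ≠ z' → z ≠ v → z' ≠ v → c z z' := by
      intro z hz z' hz' hzz hzv hzv'
      have c1' := hs _ _ c1
      have c2' := hs _ _ c2
      have c3' := hs _ _ c3
      have c4' := hs _ _ c4
      have h1' := hs _ _ h1
      have h2' := hs _ _ h2
      have h3' := hs _ _ h3
      have h4' := hs _ _ h4
      have hab' := hs _ _ hab
      have hxy' := hs _ _ hxy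
      rcases hcov z hz with rfl | rfl | rfl | rfl | rfl | rfl <;>
        rcases hcov z' hz' with rfl | rfl | rfl | rfl | rfl | rfl <;>
        first
          | exact absurd rfl hzz
          | exact absurd rfl hzv
          | exact absurd rfl hzv'
          | assumption
    obtain ⟨p, q, hp, hq, hpq, hcpq⟩ := (hb.erase hs' v).get hs'
    rw [mem_erase] at hp hq
    exact hcpq (hblue p hp.2 q hq.2 hpq hp.1 hq.1)
  by_cases A1 : c a w ∧ c b w
  · by_cases B1 : c x w ∧ c y w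
    · exact crit w v hws hvs haw hbw hxw hyw hav hbv hxv hyv hwv hwvb hcov A1.1 A1.2 B1.1 B1.2
    · -- a b is not bad for v
      have h1 : ¬ (c a v ∧ c b v) := by
        rintro ⟨h, _⟩
        exact no3 a v b w x y has hvs hbs hws hxs hys hav hba.symm haw hxt.2.1.symm
          hyt.2.1.symm hbv.symm hwv.symm hxv.symm hyv.symm hbw hxt.1.symm hyt.1.symm hxw.symm
          hyw.symm hyx.symm h A1.2 hxy
      exact assign v w hvs hws hav hbv hxv hyv haw hbw hxw hyw hwv.symm h1 B1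
  · by_cases B2 : c x v ∧ c y v
    · by_cases A2 : c a v ∧ c b v
      · exact crit v w hvs hws hav hbv hxv hyv haw hbw hxw hyw hwv.symm (hs' _ _ hwvb)
          (fun z hz => by have := hcov z hz; tauto) A2.1 A2.2 B2.1 B2.2
      · have h1 : ¬ (c x w ∧ c y w) := by
          rintro ⟨h, _⟩
          exact no3 x w y v a b hxs hws hys hvs has hbs hxw hyx.symm hxv hxt.2.1 hxt.1
            hyw.symm hwv haw.symm hbw.symm hyv hyt.2.1 hyt.1 hav.symm hbv.symm hba.symm h B2.2
            hab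
        exact assign v w hvs hws hav hbv hxv hyv haw hbw hxw hyw hwv.symm A2 h1
    · exact assign w v hws hvs haw hbw hxw hyw hav hbv hxv hyv hwv A1 B2

/-- the case of six vertices, both colours have perfect matchings -/
theorem six_three (hs : ∀ a b, c a b → c b a) {s : Finset V} (hcard : s.card = 6)
    (hr : HasM c s 3) (hb : HasM (fun a b => ¬ c a b) s 3) : HasC c 2 s := by
  have hs' : ∀ a b, ¬ c a b → ¬ c b a := fun a b h h' => h (hs _ _ h')
  obtain ⟨t, hts, htc, hP⟩ := hr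
  obtain rfl : t = s := eq_of_subset_of_card_le hts (by omega)
  obtain ⟨t₂, hts₂, htc₂, hQ⟩ := hb
  obtain rfl : t₂ = t := eq_of_subset_of_card_le hts₂ (by omega)
  have hne : t₂.Nonempty := by rw [← card_pos, htc]; omega
  obtain ⟨a, ha⟩ := hne
  obtain ⟨b, hb, hba, hab, hP1⟩ := hP.partner hs a ha
  obtain ⟨x, hx, hxa, hax, hQ1⟩ := hQ.partner hs' a ha
  have hbx : b ≠ x := fun h => hax (h ▸ hab)
  obtain ⟨y, hy, hyx, hxy, hP2⟩ := hP1.partner hs x (mem_erase.2 ⟨hbx.symm, mem_erase.2 ⟨hxa, hx⟩⟩)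
  have hy' : y ≠ b ∧ y ≠ a ∧ y ∈ t₂ := by
    rw [mem_erase, mem_erase] at hy; exact ⟨hy.1, hy.2.1, hy.2.2⟩
  obtain ⟨z, hz, hzb, hbz, hQ2⟩ := hQ1.partner hs' b (mem_erase.2 ⟨hbx, mem_erase.2 ⟨hba, hb⟩⟩)
  have hz' : z ≠ x ∧ z ≠ a ∧ z ∈ t₂ := by
    rw [mem_erase, mem_erase] at hz; exact ⟨hz.1, hz.2.1, hz.2.2⟩
  by_cases hzy : z = y
  · -- the last two vertices are joined by a red and by a blue edge
    subst hzy
    exfalso
    have e1 : (((t₂.erase a).erase b).erase x).erase z = (((t₂.erase a).erase x).erase b).erase z := by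
      ext q; simp only [mem_erase]; tauto
    have hc : ((((t₂.erase a).erase b).erase x).erase z).card = 2 := by
      rw [card_erase_of_mem, card_erase_of_mem, card_erase_of_mem, card_erase_of_mem ha, hcard]
      · exact mem_erase.2 ⟨hba, hb⟩
      · exact mem_erase.2 ⟨hbx.symm, mem_erase.2 ⟨hxa, hx⟩⟩
      · exact mem_erase.2 ⟨hyx, mem_erase.2 ⟨hy'.1, mem_erase.2 ⟨hy'.2.1, hy'.2.2⟩⟩⟩
    rw [← e1] at hQ2
    obtain ⟨u, v, huv, hE⟩ := card_eq_two.1 hc
    rw [hE] at hP2 hQ2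
    obtain ⟨v1, hv1, hv1u, hcv1, _⟩ := hP2.partner hs u (by simp)
    obtain ⟨v2, hv2, hv2u, hcv2, _⟩ := hQ2.partner hs' u (by simp)
    simp only [mem_insert, mem_singleton] at hv1 hv2
    have g1 : v1 = v := hv1.resolve_left hv1u
    have g2 : v2 = v := hv2.resolve_left hv2u
    subst g1
    subst g2
    exact hcv2 hcv1
  · have hz2 : z ∈ (((t₂.erase a).erase b).erase x).erase y :=
      mem_erase.2 ⟨hzy, mem_erase.2 ⟨hz'.1, mem_erase.2 ⟨hzb, mem_erase.2 ⟨hz'.2.1, hz'.2.2⟩⟩⟩⟩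
    obtain ⟨z', hzz, hzz', hcz, _⟩ := hP2.partner hs z hz2
    simp only [mem_erase] at hzz
    refine ⟨x, y, a, hx, hy'.2.2, ha, hyx.symm, hxa, hy'.2.1, hxy, hs' _ _ hax, ?_⟩
    refine ⟨z, z', b, ?_, ?_, ?_, hzz'.symm, hzb, hzz.2.2.1, hcz, hs' _ _ hbz, trivial⟩
    · simp only [mem_sdiff, mem_insert, mem_singleton, not_or]
      exact ⟨hz'.2.2, hz'.1, hzy, hz'.2.1⟩
    · simp only [mem_sdiff, mem_insert, mem_singleton, not_or]
      exact ⟨hzz.2.2.2.2, hzz.2.1, hzz.1, hzz.2.2.2.1⟩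
    · simp only [mem_sdiff, mem_insert, mem_singleton, not_or]
      exact ⟨hb, hbx, hy'.1.symm, hba⟩

/-- **Two colours.**  If both colours contain `k` disjoint edges and there are at least `4k - 2`
vertices, then there are `k` disjoint bichromatic cherries. -/
theorem two_colours (hs : ∀ a b, c a b → c b a) : ∀ (k : ℕ) (s : Finset V), HasM c s k →
    HasM (fun a b => ¬ c a b) s k → 4 * k ≤ s.card + 2 → HasC c k s := by
  have hs' : ∀ a b, ¬ c a b → ¬ c b a := fun a b h h' => h (hs _ _ h')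
  intro k
  induction k with
  | zero => intro s _ _ _; trivial
  | succ k ih =>
    intro s hr hb hcard
    rcases Nat.eq_zero_or_pos k with rfl | hk
    · obtain ⟨a, b, ha, hbs, hab, hcab⟩ := hr.get hs
      obtain ⟨x, y, hx, hy, hxy, hcxy⟩ := hb.get hs'
      obtain ⟨p, q, r, hp, hq, hr', h1, h2, h3, h4, h5⟩ :=
        exists_cherry hs ha hbs hx hy hab hxy hcab hcxy
      exact ⟨p, q, r, hp, hq, hr', h1, h2, h3, h4, h5, trivial⟩
    · -- `k + 1 ≥ 2`
      have hnn : ∀ t j, HasM (fun a b => ¬ ¬ c a b) t j ↔ HasM c t j := by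
        intro t j
        simp only [not_not]
      by_cases h6 : k = 1 ∧ s.card = 6
      · obtain ⟨rfl, h6⟩ := h6
        by_cases h3 : HasM c s 3
        · by_cases h3' : HasM (fun a b => ¬ c a b) s 3
          · exact six_three hs h6 h3 h3'
          · exact HasC.of_compl (six_two hs' h6 hb h3' ((hnn _ _).2 hr))
        · exact six_two hs h6 hr h3 hb
      · have hbig : 3 * (k + 1) + 1 ≤ s.card := by omega
        by_cases h3 : HasM c s (k + 2)
        · by_cases h3' : HasM (fun a b => ¬ c a b) s (k + 2)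
          · obtain ⟨p, q, r, hp, hq, hr', h4, h5, h6', h7, h8, h9, h10⟩ :=
              step hs h3 h3' (by omega)
            refine ⟨p, q, r, hp, hq, hr', h4, h5, h6', h7, h8, ih _ h9 h10 ?_⟩
            rw [card_sdiff_of_subset (triple_subset hp hq hr'), card_triple h4 h5 h6']
            omega
          · exact HasC.of_compl (hasC_of_max hs' (k + 1) s hb h3' hbig)
        · exact hasC_of_max hs (k + 1) s hr h3 hbig

end Q109.Simw
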